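import Pool.Agent.EllHiggs.PlaceDeg

/-!
# MP_fdcaa9_ag, module ProdForm
-/

open Polynomial Module

noncomputable section

namespace Pool.Agent.EllHiggs

open Pool.Agent.MP_b814b1_ag

namespace ProdForm

variable {k L : Type} [Field k] [Field L] [Algebra k L] [IsAlgClosed k]

theorem isOrd (hL : IsFunField k L) (c : Place k L) : PF.IsOrd c.O c.ord where
  zero := c.ord_zero
  mul := c.ord_mul
  mem f _ := Iff.rfl
  surj := ⟨c.unif, c.unif_ne_zero, c.ord_unif⟩
  res f hf := by
    obtain ⟨s, hs⟩ := Place.rational hL c f hf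
    refine ⟨s, ?_⟩
    rcases hs with hs | hs
    · exact Or.inl (sub_eq_zero.1 hs)
    · refine Or.inr ⟨?_, by omega⟩
      intro h0
      rw [h0, c.ord_zero] at hs
      omega

theorem ordv_eq (hL : IsFunField k L) (c : Place k L) : PF.ordv c.O = c.ord :=
  ((isOrd hL c).ordv_of).unique (isOrd hL c)

theorem O_mem (hL : IsFunField k L) (c : Place k L) : c.O ∈ PF.pl k L := by
  have h := (isOrd hL c).ordv_of
  exact h.mem_pl

/-- The bijection between places and valuation rings. -/
def toPl (hL : IsFunField k L) (c : Place k L) : PF.pl k L := ⟨c.O, O_mem hL c⟩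

theorem toPl_injective (hL : IsFunField k L) : Function.Injective (toPl hL) := by
  intro c c' h
  have h1 : c.O = c'.O := congrArg Subtype.val h
  have h2 : c.ord = c'.ord := by rw [← ordv_eq hL c, ← ordv_eq hL c', h1]
  cases c
  cases c'
  simp only at h2
  subst h2
  rfl

variable [CharZero k]

theorem toPl_surjective (hL : IsFunField k L) : Function.Surjective (toPl hL) := by
  rintro ⟨c, hc⟩
  obtain ⟨t, ht, hfin⟩ := id hL
  have hcur : IsCurve k t := ⟨ht, hfin⟩
  have ho := PF.isOrd_ordv t hc
  let c' : Place k L :=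
    { ord := PF.ordv c
      ord_zero := ho.zero
      ord_mul := ho.mul
      ord_add := by
        intro f g hf hg hfg
        have h1 := ho.memP_add (m := min (PF.ordv c f) (PF.ordv c g)) (f := f) (g := g)
          (Or.inr (min_le_left _ _)) (Or.inr (min_le_right _ _))
        exact h1.resolve_left hfg
      ord_const := ho.ordv_const
      exists_one := by
        obtain ⟨f, _, hf⟩ := ho.surj
        exact ⟨f, hf⟩ }
  refine ⟨c', ?_⟩
  apply Subtype.ext
  ext f
  change 0 ≤ PF.ordv c f ↔ f ∈ c
  by_cases hf : f = 0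
  · rw [hf, ho.zero]
    exact ⟨fun _ => zero_mem _, fun _ => le_refl _⟩
  · exact (ho.mem f hf).symm

end ProdForm

open ProdForm

section
variable {k L : Type} [Field k] [Field L] [Algebra k L] [IsAlgClosed k] [CharZero k]

theorem finite_ord (hL : IsFunField k L) (f : L) : {c : Place k L | c.ord f ≠ 0}.Finite := by
  by_cases hf : f = 0
  · refine Set.finite_empty.subset fun c hc => hc ?_
    rw [hf, c.ord_zero]
  obtain ⟨t, ht, hfin⟩ := id hL
  have hcur : IsCurve k t := ⟨ht, hfin⟩
  have h1 := (PF.ordv_finite (kk := k) t hf).preimage (toPl_injective hL).injOn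
  refine h1.subset fun c hc => ?_
  change PF.ordv c.O f ≠ 0
  rw [ordv_eq hL c]
  exact hc

theorem sum_ord (hL : IsFunField k L) (f : L) : ∑ᶠ c : Place k L, c.ord f = 0 := by
  by_cases hf : f = 0
  · rw [hf]
    rw [finsum_congr (fun c : Place k L => c.ord_zero), finsum_zero]
  obtain ⟨t, ht, hfin⟩ := id hL
  have hcur : IsCurve k t := ⟨ht, hfin⟩
  rw [← PF.sum_ordv (kk := k) t hf]
  refine finsum_eq_of_bijective (toPl hL) ⟨toPl_injective hL, toPl_surjective hL⟩ fun c => ?_
  change c.ord f = PF.ordv c.O f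
  rw [ordv_eq hL c]

theorem exists_pole (hL : IsFunField k L) (f : L) (hf : ∀ s : k, f ≠ algebraMap k L s) :
    ∃ c : Place k L, c.ord f < 0 := by
  by_contra hcon
  push Not at hcon
  obtain ⟨t, ht, hfin⟩ := id hL
  have hcur : IsCurve k t := ⟨ht, hfin⟩
  obtain ⟨s, hs⟩ := PF.const_of_mem (kk := k) t f (by
    intro c hc
    obtain ⟨c', hc'⟩ := toPl_surjective hL ⟨c, hc⟩
    have h1 : c'.O = c := congrArg Subtype.val hc'
    rw [← h1]
    exact hcon c')
  exact hf s hs

end

end Pool.Agent.EllHiggs
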