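import Pool.Agent.EllHiggs.ProdForm

/-!
# MP_fdcaa9_ag, module Restr
-/

open Polynomial Module

noncomputable section

namespace Pool.Agent.EllHiggs

namespace Restr

variable {k K M : Type} [Field k] [Field K] [Field M] [Algebra k K] [Algebra K M] [Algebra k M]
  [IsScalarTower k K M]

theorem inv_mem_or {L : Type} [Field L] [Algebra k L] (c : Place k L) (f : L) :
    f ∈ c.O ∨ f⁻¹ ∈ c.O := by
  rw [Place.mem_O, Place.mem_O, c.ord_inv]
  omega

/-- some element of the base field has positive order -/
theorem exists_pos [FiniteDimensional K M] (c : Place k M) :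
    ∃ f : K, 0 < c.ord (algebraMap K M f) := by
  by_contra hne
  push Not at hne
  have hF : ∀ f : K, algebraMap K M f ∈ c.O := by
    intro f
    have h1 := hne f⁻¹
    rw [map_inv₀, c.ord_inv] at h1
    rw [Place.mem_O]
    omega
  let c' : Subalgebra K M :=
    { carrier := c.O
      mul_mem' := fun ha hb => c.O.mul_mem ha hb
      add_mem' := fun ha hb => c.O.add_mem ha hb
      algebraMap_mem' := hF }
  have hall : ∀ l : M, l ∈ c.O := by
    intro l
    rcases inv_mem_or c l with h | h
    · exact h
    · have h1 : l⁻¹ ∈ c' := h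
      have h2 : IsAlgebraic K ((⟨l⁻¹, h1⟩ : c') : M) := Algebra.IsAlgebraic.isAlgebraic _
      have h3 := Subalgebra.inv_mem_of_algebraic (A := c') (x := ⟨l⁻¹, h1⟩) h2
      change (l⁻¹)⁻¹ ∈ c' at h3
      rw [inv_inv] at h3
      exact h3
  have h4 := hall c.unif⁻¹
  rw [Place.mem_O, c.ord_inv, c.ord_unif] at h4
  omega

end Restr

section
variable {k K M : Type} [Field k] [Field K] [Field M] [Algebra k K] [Algebra K M] [Algebra k M]
  [IsScalarTower k K M]

theorem exists_over [FiniteDimensional K M] (c : Place k M) : ∃ b : Place k K, c.Over b := by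
  classical
  have hex : ∃ n : ℕ, 0 < n ∧ ∃ f : K, c.ord (algebraMap K M f) = n := by
    obtain ⟨f, hf⟩ := Restr.exists_pos (K := K) c
    exact ⟨(c.ord (algebraMap K M f)).toNat, by omega, f, by omega⟩
  set e := Nat.find hex with he
  obtain ⟨he0, g, hg⟩ := Nat.find_spec hex
  have hmin : ∀ m : ℕ, 0 < m → (∃ f : K, c.ord (algebraMap K M f) = m) → e ≤ m :=
    fun m hm hf => Nat.find_min' hex ⟨hm, hf⟩
  have hg0 : g ≠ 0 := by
    rintro rfl
    rw [map_zero, c.ord_zero] at hg
    omega
  have hmap0 : ∀ f : K, f ≠ 0 → algebraMap K M f ≠ 0 := fun f hf => (_root_.map_ne_zero _).2 hf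
  -- the orders are multiples of `e`
  have hdvd : ∀ f : K, (e : ℤ) ∣ c.ord (algebraMap K M f) := by
    intro f
    by_cases hf : f = 0
    · rw [hf, map_zero, c.ord_zero]; exact dvd_zero _
    · rw [Int.dvd_iff_emod_eq_zero]
      by_contra hne
      set q := c.ord (algebraMap K M f) / (e : ℤ) with hq
      have h1 : c.ord (algebraMap K M (f * g ^ (-q))) = c.ord (algebraMap K M f) % (e : ℤ) := by
        rw [map_mul, map_zpow₀, c.ord_mul _ _ (hmap0 f hf) (zpow_ne_zero _ (hmap0 g hg0)),
          c.ord_zpow, hg, Int.emod_def]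
        ring
      have h2 : 0 ≤ c.ord (algebraMap K M f) % (e : ℤ) := Int.emod_nonneg _ (by omega)
      have h3 : c.ord (algebraMap K M f) % (e : ℤ) < e := Int.emod_lt_of_pos _ (by omega)
      have h4 := hmin (c.ord (algebraMap K M f) % (e : ℤ)).toNat (by omega)
        ⟨f * g ^ (-q), by rw [h1]; omega⟩
      omega
  have hmul : ∀ f : K, c.ord (algebraMap K M f) = e * (c.ord (algebraMap K M f) / e) := by
    intro f
    exact (Int.mul_ediv_cancel' (hdvd f)).symm
  have he0' : (0 : ℤ) < e := by omega
  let b : Place k K :=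
    { ord := fun f => c.ord (algebraMap K M f) / e
      ord_zero := by rw [map_zero, c.ord_zero]; simp
      ord_mul := by
        intro f f' hf hf'
        have h1 := hmul f
        have h2 := hmul f'
        have h3 := hmul (f * f')
        rw [map_mul, c.ord_mul _ _ (hmap0 f hf) (hmap0 f' hf')] at h3 ⊢
        have h4 : (e : ℤ) * ((c.ord (algebraMap K M f) + c.ord (algebraMap K M f')) / e) =
            e * (c.ord (algebraMap K M f) / e + c.ord (algebraMap K M f') / e) := by
          rw [← h3, mul_add, ← h1, ← h2]
        exact mul_left_cancel₀ he0'.ne' h4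
      ord_add := by
        intro f f' hf hf' hff'
        have h1 := hmul f
        have h2 := hmul f'
        have h3 := hmul (f + f')
        have h4 := c.ord_add _ _ (hmap0 f hf) (hmap0 f' hf') (by
          rw [← map_add]; exact hmap0 _ hff')
        rw [← map_add, h1, h2, h3] at h4
        rcases le_total (c.ord (algebraMap K M f) / e) (c.ord (algebraMap K M f') / e) with h5 | h5
        · rw [min_eq_left h5]
          rw [min_eq_left (mul_le_mul_of_nonneg_left h5 he0'.le)] at h4
          exact le_of_mul_le_mul_left h4 he0'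
        · rw [min_eq_right h5]
          rw [min_eq_right (mul_le_mul_of_nonneg_left h5 he0'.le)] at h4
          exact le_of_mul_le_mul_left h4 he0'
      ord_const := by
        intro a
        rw [← IsScalarTower.algebraMap_apply, c.ord_const]
        simp
      exists_one := ⟨g, by rw [hg]; exact Int.ediv_self (by omega)⟩ }
  exact ⟨b, e, he0', hmul⟩

omit [Algebra k M] [IsScalarTower k K M] in
theorem Restr.place_ext {b b' : Place k K} (h : b.ord = b'.ord) : b = b' := by
  cases b
  cases b'
  cases h
  rfl

theorem Place.Over.unique {c : Place k M} {b b' : Place k K} (h : c.Over b) (h' : c.Over b') :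
    b = b' := by
  obtain ⟨e, he, h⟩ := h
  obtain ⟨e', he', h'⟩ := h'
  have key : ∀ f : K, e * b.ord f = e' * b'.ord f := fun f => by rw [← h, ← h']
  obtain ⟨f, hf⟩ := b.exists_one
  obtain ⟨f', hf'⟩ := b'.exists_one
  have h1 := key f
  have h2 := key f'
  rw [hf, mul_one] at h1
  rw [hf', mul_one] at h2
  have h3 : e = e' := by
    apply Int.dvd_antisymm he.le he'.le
    · exact ⟨_, h2.symm⟩
    · exact ⟨_, h1⟩
  apply Restr.place_ext
  funext f
  have h4 := key f
  rw [← h3] at h4
  exact mul_left_cancel₀ he.ne' h4

theorem IsFunField.of_finite [FiniteDimensional K M] (h : IsFunField k K) : IsFunField k M := by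
  obtain ⟨t, ht, hfin⟩ := h
  refine ⟨algebraMap K M t, ?_, ?_⟩
  · exact (transcendental_algebraMap_iff (R := k) (S := K) (A := M)
      (algebraMap K M).injective (a := t)).2 ht
  · set K0 := IntermediateField.adjoin k {t} with hK0
    set K1 := IntermediateField.adjoin k {algebraMap K M t} with hK1
    have hfin2 : FiniteDimensional K0 M := Module.Finite.trans K M
    have hmem : ∀ r : K0, algebraMap K M r ∈ K1 := by
      intro r
      have h1 := IntermediateField.adjoin_map k {t} (IsScalarTower.toAlgHom k K M)
      rw [Set.image_singleton] at h1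
      have h2 : IsScalarTower.toAlgHom k K M r ∈ K0.map (IsScalarTower.toAlgHom k K M) :=
        ⟨r, r.2, rfl⟩
      have h3 : K0.map (IsScalarTower.toAlgHom k K M) = K1 := h1
      rw [h3] at h2
      exact h2
    obtain ⟨s, hs⟩ := hfin2.fg_top
    refine ⟨⟨s, ?_⟩⟩
    rw [eq_top_iff]
    intro l _
    have hl : l ∈ Submodule.span K0 (s : Set M) := by rw [hs]; trivial
    induction hl using Submodule.span_induction with
    | mem x hx => exact Submodule.subset_span hx
    | zero => exact zero_mem _
    | add x y _ _ hx hy => exact add_mem (hx trivial) (hy trivial)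
    | smul r x _ hx =>
      have h1 : r • x = (⟨algebraMap K M r, hmem r⟩ : K1) • x := by
        change _ = algebraMap K M r * x
        rw [Algebra.smul_def]
        rfl
      rw [h1]
      exact Submodule.smul_mem _ _ (hx trivial)

theorem finite_over [IsAlgClosed k] [CharZero k] [FiniteDimensional K M] (h : IsFunField k K)
    (S : Set (Place k K)) (hS : S.Finite) : {c : Place k M | ∃ b ∈ S, c.Over b}.Finite := by
  have h1 : {c : Place k M | ∃ b ∈ S, c.Over b} = ⋃ b ∈ S, {c : Place k M | c.Over b} := by
    ext c
    simp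
  rw [h1]
  refine hS.biUnion ?_
  intro b _
  refine (finite_ord (h.of_finite (M := M)) (algebraMap K M b.unif)).subset ?_
  rintro c ⟨e, he, hc⟩
  change c.ord (algebraMap K M b.unif) ≠ 0
  rw [hc, b.ord_unif, mul_one]
  exact he.ne'
end

end Pool.Agent.EllHiggs
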