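import Pool.Agent.EllHiggs.Defs

/-!
# MP_fdcaa9_ag: basic facts on places, auxiliary definitions
-/

open Polynomial Module

noncomputable section

namespace Pool.Agent.EllHiggs

namespace Place

variable {k L : Type} [Field k] [Field L] [Algebra k L] (c : Place k L)

/-- `f` has order at least `n` at `c`. -/
def Ge (n : ℤ) (f : L) : Prop := f = 0 ∨ n ≤ c.ord f

theorem mem_O {f : L} : f ∈ c.O ↔ 0 ≤ c.ord f := Iff.rfl

theorem ge_zero_iff {f : L} : c.Ge 0 f ↔ f ∈ c.O := by
  constructor
  · rintro (rfl | h)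
    · exact zero_mem _
    · exact h
  · exact fun h => Or.inr h

theorem ord_one : c.ord 1 = 0 := by simpa using c.ord_const 1

theorem ord_neg_one : c.ord (-1) = 0 := by simpa using c.ord_const (-1)

theorem ord_neg (f : L) : c.ord (-f) = c.ord f := by
  rcases eq_or_ne f 0 with rfl | hf
  · simp
  · have := c.ord_mul (-1) f (neg_ne_zero.2 one_ne_zero) hf
    rw [neg_one_mul, ord_neg_one, zero_add] at this
    exact this

theorem ord_inv (f : L) : c.ord f⁻¹ = - c.ord f := by
  rcases eq_or_ne f 0 with rfl | hf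
  · simp [c.ord_zero]
  · have := c.ord_mul f f⁻¹ hf (inv_ne_zero hf)
    rw [mul_inv_cancel₀ hf, ord_one] at this
    omega

theorem ord_div (f g : L) (hf : f ≠ 0) (hg : g ≠ 0) : c.ord (f / g) = c.ord f - c.ord g := by
  rw [div_eq_mul_inv, c.ord_mul f g⁻¹ hf (inv_ne_zero hg), ord_inv]; omega

theorem ord_pow (f : L) (n : ℕ) : c.ord (f ^ n) = n * c.ord f := by
  rcases eq_or_ne f 0 with rfl | hf
  · rcases eq_or_ne n 0 with rfl | hn
    · simp [ord_one]
    · simp [zero_pow hn, c.ord_zero]
  · induction n with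
    | zero => simp [ord_one]
    | succ n ih =>
      rw [pow_succ, c.ord_mul _ _ (pow_ne_zero n hf) hf, ih]; push_cast; ring

theorem ord_zpow (f : L) (n : ℤ) : c.ord (f ^ n) = n * c.ord f := by
  cases n with
  | ofNat n => simp [ord_pow]
  | negSucc n => rw [zpow_negSucc, ord_inv, ord_pow, Int.negSucc_eq]; push_cast; ring

theorem ord_prod {ι : Type*} (s : Finset ι) (f : ι → L) (h : ∀ i ∈ s, f i ≠ 0) :
    c.ord (∏ i ∈ s, f i) = ∑ i ∈ s, c.ord (f i) := by
  classical
  induction s using Finset.induction_on with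
  | empty => simp [ord_one]
  | insert a s ha ih =>
    rw [Finset.prod_insert ha, Finset.sum_insert ha, c.ord_mul _ _ (h a (by simp))
      (Finset.prod_ne_zero_iff.2 fun i hi => h i (by simp [hi])),
      ih fun i hi => h i (by simp [hi])]

variable {c}

theorem Ge.zero {n : ℤ} : c.Ge n 0 := Or.inl rfl

theorem Ge.of_le {n : ℤ} {f : L} (h : n ≤ c.ord f) : c.Ge n f := Or.inr h

theorem Ge.le_ord {n : ℤ} {f : L} (h : c.Ge n f) (hf : f ≠ 0) : n ≤ c.ord f := h.resolve_left hf

theorem Ge.mono {m n : ℤ} {f : L} (h : c.Ge n f) (hm : m ≤ n) : c.Ge m f :=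
  h.imp_right fun h => hm.trans h

theorem Ge.add {n : ℤ} {f g : L} (hf : c.Ge n f) (hg : c.Ge n g) : c.Ge n (f + g) := by
  rcases eq_or_ne f 0 with rfl | hf0
  · rwa [zero_add]
  rcases eq_or_ne g 0 with rfl | hg0
  · rwa [add_zero]
  rcases eq_or_ne (f + g) 0 with h0 | h0
  · exact Or.inl h0
  · exact Or.inr ((le_min (hf.le_ord hf0) (hg.le_ord hg0)).trans (c.ord_add f g hf0 hg0 h0))

theorem Ge.neg {n : ℤ} {f : L} (hf : c.Ge n f) : c.Ge n (-f) := by
  rcases hf with rfl | hf
  · rw [neg_zero]; exact Ge.zero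
  · exact Or.inr (by rwa [ord_neg])

theorem Ge.sub {n : ℤ} {f g : L} (hf : c.Ge n f) (hg : c.Ge n g) : c.Ge n (f - g) := by
  rw [sub_eq_add_neg]; exact hf.add hg.neg

theorem Ge.mul {m n : ℤ} {f g : L} (hf : c.Ge m f) (hg : c.Ge n g) : c.Ge (m + n) (f * g) := by
  rcases eq_or_ne f 0 with rfl | hf0
  · rw [zero_mul]; exact Ge.zero
  rcases eq_or_ne g 0 with rfl | hg0
  · rw [mul_zero]; exact Ge.zero
  · exact Or.inr (by rw [c.ord_mul f g hf0 hg0]; exact add_le_add (hf.le_ord hf0) (hg.le_ord hg0))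

theorem Ge.sum {ι : Type*} {n : ℤ} {s : Finset ι} {f : ι → L} (h : ∀ i ∈ s, c.Ge n (f i)) :
    c.Ge n (∑ i ∈ s, f i) := by
  classical
  induction s using Finset.induction_on with
  | empty => simpa using Ge.zero
  | insert a s ha ih =>
    rw [Finset.sum_insert ha]
    exact (h a (by simp)).add (ih fun i hi => h i (by simp [hi]))

variable (c)

/-- A uniformizer. -/
def unif : L := c.exists_one.choose

theorem ord_unif : c.ord c.unif = 1 := c.exists_one.choose_spec

theorem unif_ne_zero : c.unif ≠ 0 := by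
  intro h
  have := c.ord_unif
  rw [h, c.ord_zero] at this
  exact absurd this (by norm_num)

theorem ge_iff_unif {n : ℤ} {f : L} : c.Ge n f ↔ c.unif ^ (-n) * f ∈ c.O := by
  rcases eq_or_ne f 0 with rfl | hf
  · simp only [mul_zero, zero_mem, iff_true]; exact Ge.zero
  · rw [mem_O, c.ord_mul _ _ (zpow_ne_zero _ c.unif_ne_zero) hf, ord_zpow, ord_unif]
    constructor
    · intro h; have := h.le_ord hf; omega
    · intro h; exact Or.inr (by omega)

/-- The residue field is `k`. -/
def Rational : Prop := ∀ f ∈ c.O, ∃ s : k, c.Ge 1 (f - algebraMap k L s)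

open scoped Classical in
/-- The residue of an element of `O_c`. -/
def res (f : L) : k := if h : ∃ s : k, c.Ge 1 (f - algebraMap k L s) then h.choose else 0

variable {c}

theorem ge_res (hc : c.Rational) {f : L} (hf : f ∈ c.O) : c.Ge 1 (f - algebraMap k L (c.res f)) := by
  have h := hc f hf
  rw [res, dif_pos h]
  exact h.choose_spec

theorem eq_zero_of_ge_one {s : k} (h : c.Ge 1 (algebraMap k L s)) : s = 0 := by
  rcases h with h | h
  · exact (map_eq_zero _).1 h
  · rw [c.ord_const] at h; omega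

theorem res_eq {f : L} {s : k} (h : c.Ge 1 (f - algebraMap k L s)) : c.res f = s := by
  have h' : ∃ s : k, c.Ge 1 (f - algebraMap k L s) := ⟨s, h⟩
  rw [res, dif_pos h']
  have h2 := h.sub h'.choose_spec
  have h3 : f - algebraMap k L s - (f - algebraMap k L h'.choose) =
      algebraMap k L (h'.choose - s) := by rw [map_sub]; ring
  rw [h3] at h2
  exact (sub_eq_zero.1 (eq_zero_of_ge_one h2))

theorem res_const (s : k) : c.res (algebraMap k L s) = s :=
  res_eq (by rw [sub_self]; exact Ge.zero)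

theorem mem_O_const (s : k) : algebraMap k L s ∈ c.O := (c.ord_const s).ge

theorem res_add (hc : c.Rational) {f g : L} (hf : f ∈ c.O) (hg : g ∈ c.O) :
    c.res (f + g) = c.res f + c.res g := by
  apply res_eq
  have := (ge_res hc hf).add (ge_res hc hg)
  rw [map_add]
  convert this using 1
  ring

theorem res_mul (hc : c.Rational) {f g : L} (hf : f ∈ c.O) (hg : g ∈ c.O) :
    c.res (f * g) = c.res f * c.res g := by
  apply res_eq
  have h1 := (ge_res hc hf).mul (c.ge_zero_iff.2 hg)
  have h2 := (c.ge_zero_iff.2 (mem_O_const (c := c) (c.res f))).mul (ge_res hc hg)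
  rw [add_zero] at h1
  rw [zero_add] at h2
  have := h1.add h2
  rw [map_mul]
  convert this using 1
  ring

theorem res_eq_zero_iff (hc : c.Rational) {f : L} (hf : f ∈ c.O) : c.res f = 0 ↔ c.Ge 1 f := by
  constructor
  · intro h
    have := ge_res hc hf
    rwa [h, map_zero, sub_zero] at this
  · intro h
    exact res_eq (by rwa [map_zero, sub_zero])

/-- The order of the pole of the point with first coordinate `x` (in the coordinate `l^2 x`). -/
def nc (c : Place k L) (l x : L) : ℤ := max 0 (-(c.ord (l ^ 2 * x))) / 2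

end Place

/-! ### Places of finite extensions -/

section

variable {k K M : Type} [Field k] [Field K] [Field M] [Algebra k K] [Algebra K M] [Algebra k M]

/-- The place `c` lies over the place `b`. -/
def Place.Over (c : Place k M) (b : Place k K) : Prop :=
  ∃ e : ℤ, 0 < e ∧ ∀ f : K, c.ord (algebraMap K M f) = e * b.ord f

theorem Place.Over.mem_O {c : Place k M} {b : Place k K} (h : c.Over b) {f : K} :
    algebraMap K M f ∈ c.O ↔ f ∈ b.O := by
  obtain ⟨e, he, h⟩ := h
  rw [Place.mem_O, Place.mem_O, h]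
  exact mul_nonneg_iff_of_pos_left he

end

/-! ### Partial homomorphisms, evaluation, reduction -/

section

variable {k F M : Type} [Field k] [Field F] [Field M] [Algebra k F] [Algebra k M]

/-- `e` is a homomorphism of `k`-algebras on `O`, and `O` contains the inverses of the elements
with nonzero image. -/
structure PHom (O : Subalgebra k F) (e : F → M) : Prop where
  add : ∀ g ∈ O, ∀ g' ∈ O, e (g + g') = e g + e g'
  mul : ∀ g ∈ O, ∀ g' ∈ O, e (g * g') = e g * e g'
  const : ∀ s : k, e (algebraMap k F s) = algebraMap k M s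
  inv_mem : ∀ g ∈ O, e g ≠ 0 → g⁻¹ ∈ O

namespace PHom

variable {O : Subalgebra k F} {e : F → M} (h : PHom O e)
include h

/-- The homomorphism. -/
def toAlgHom : O →ₐ[k] M where
  toFun g := e g
  map_one' := by simpa using h.const 1
  map_mul' g g' := h.mul g g.2 g' g'.2
  map_zero' := by simpa using h.const 0
  map_add' g g' := h.add g g.2 g' g'.2
  commutes' s := h.const s

theorem toAlgHom_apply (g : O) : h.toAlgHom g = e g := rfl

theorem one : e 1 = 1 := by simpa using h.const 1

theorem zero : e 0 = 0 := by simpa using h.const 0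

theorem neg {g : F} (hg : g ∈ O) : e (-g) = - e g := map_neg h.toAlgHom ⟨g, hg⟩

theorem sub {g g' : F} (hg : g ∈ O) (hg' : g' ∈ O) : e (g - g') = e g - e g' :=
  map_sub h.toAlgHom ⟨g, hg⟩ ⟨g', hg'⟩

theorem pow {g : F} (hg : g ∈ O) (n : ℕ) : e (g ^ n) = e g ^ n := map_pow h.toAlgHom ⟨g, hg⟩ n

theorem sum {ι : Type*} {s : Finset ι} {f : ι → F} (hf : ∀ i ∈ s, f i ∈ O) :
    e (∑ i ∈ s, f i) = ∑ i ∈ s, e (f i) := by
  classical
  induction s using Finset.induction_on with
  | empty => simpa using h.zero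
  | insert a s ha ih =>
    rw [Finset.sum_insert ha, Finset.sum_insert ha, h.add _ (hf a (by simp)) _
      (sum_mem fun i hi => hf i (by simp [hi])), ih fun i hi => hf i (by simp [hi])]

theorem inv {g : F} (hg : g ∈ O) (h0 : e g ≠ 0) : e g⁻¹ = (e g)⁻¹ := by
  have hg0 : g ≠ 0 := by rintro rfl; exact h0 h.zero
  have h1 : e g * e g⁻¹ = 1 := by
    rw [← h.mul g hg _ (h.inv_mem g hg h0), mul_inv_cancel₀ hg0, h.one]
  exact eq_inv_of_mul_eq_one_right h1

end PHom

variable {L : Type} [Field L] [Algebra k L] [Algebra L F] [Algebra L M]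

/-- `e` is the evaluation at the point `(xP, yP)`. -/
structure IsEval (w : Weier L F) (xP yP : M) (O : Subalgebra k F) (e : F → M) : Prop
    extends PHom O e where
  base_mem : ∀ l : L, algebraMap L F l ∈ O
  base : ∀ l : L, e (algebraMap L F l) = algebraMap L M l
  x_mem : w.x ∈ O
  y_mem : w.y ∈ O
  ex : e w.x = xP
  ey : e w.y = yP

/-- The equation of a point. -/
def Weier.On (w : Weier L F) (xP yP : M) : Prop :=
  yP ^ 2 = xP ^ 3 + algebraMap L M w.a * xP + algebraMap L M w.b

/-- The parameter at infinity. -/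
def Weier.zeta (w : Weier L F) : F := w.x / w.y

end

section

variable {k L F κ : Type} [Field k] [Field L] [Field F] [Field κ] [Algebra k L] [Algebra L F]
  [Algebra k F] [Algebra k κ]

/-- `red` is the reduction modulo the maximal ideal of the place `c` of the rational functions on
the Weierstrass curve `w` over `O_c` to the rational functions on the special fibre `w'`. -/
structure IsRed (c : Place k L) (w : Weier L F) (w' : Weier k κ) (O : Subalgebra k F)
    (red : F → κ) : Prop extends PHom O red where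
  base_mem : ∀ f ∈ c.O, algebraMap L F f ∈ O
  base : ∀ f ∈ c.O, red (algebraMap L F f) = algebraMap k κ (c.res f)
  base_mem' : ∀ f : L, algebraMap L F f ∈ O → f ∈ c.O
  x_mem : w.x ∈ O
  y_mem : w.y ∈ O
  rx : red w.x = w'.x
  ry : red w.y = w'.y
  ker : ∀ g ∈ O, red g = 0 → (algebraMap L F c.unif)⁻¹ * g ∈ O
  val : ∀ g : F, g ≠ 0 → ∃ n : ℤ, algebraMap L F c.unif ^ n * g ∈ O ∧
    red (algebraMap L F c.unif ^ n * g) ≠ 0
  surj : ∀ h : κ, ∃ g ∈ O, red g = h
  aff_mem : ∀ g ∈ w.aff c.O, g ∈ O ∧ red g ∈ w'.aff (⊤ : Subalgebra k k)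
  aff_lift : ∀ h ∈ w'.aff (⊤ : Subalgebra k k), ∃ g ∈ w.aff c.O, red g = h
  aff_sat : ∀ g ∈ w.aff c.O, red g = 0 → (algebraMap L F c.unif)⁻¹ * g ∈ w.aff c.O
  inf_mem : ∀ g ∈ w.inf c.O, g ∈ O ∧ red g ∈ w'.inf (⊤ : Subalgebra k k)
  inf_lift : ∀ h ∈ w'.inf (⊤ : Subalgebra k k), ∃ g ∈ w.inf c.O, red g = h
  inf_sat : ∀ g ∈ w.inf c.O, red g = 0 → (algebraMap L F c.unif)⁻¹ * g ∈ w.inf c.O

end

/-! ### Bundles on Weierstrass curves in matrix form -/

section

variable {k L F : Type} [Field k] [Field L] [Field F] [Algebra k L] [Algebra L F] [Algebra k F]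

/-- A vector bundle of rank `r` on the Weierstrass curve `w` over `R`: the module of sections on
the affine part `M = P A^n` is the image of the idempotent matrix `I P`, `P I = 1`, and the module
of germs at infinity is `N = g T^r`. -/
structure LBun (w : Weier L F) (R : Subalgebra k L) (r : ℕ) where
  n : ℕ
  P : Matrix (Fin r) (Fin n) F
  I : Matrix (Fin n) (Fin r) F
  g : Matrix (Fin r) (Fin r) F
  PI : P * I = 1
  IP : ∀ i j, (I * P) i j ∈ w.aff R
  hg : IsUnit g.det
  glueP : ∀ i j, ∃ m : ℕ, w.zeta ^ m * (g⁻¹ * P) i j ∈ w.inf R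
  glueI : ∀ i j, ∃ m : ℕ, w.zeta ^ m * (I * g) i j ∈ w.inf R

/-- Sections of `End(n Sigma)`. -/
def LBun.E {w : Weier L F} {R : Subalgebra k L} {r : ℕ} (B : LBun w R r) (m : ℕ) :
    Set (Matrix (Fin r) (Fin r) F) :=
  {A | (∀ i j, (B.I * A * B.P) i j ∈ w.aff R) ∧ ∀ i j, w.zeta ^ m * (B.g⁻¹ * A * B.g) i j ∈ w.inf R}

theorem Weier.aff_mono (w : Weier L F) {R R' : Subalgebra k L} (h : R ≤ R') : w.aff R ≤ w.aff R' :=
  Algebra.adjoin_mono (Set.union_subset_union_left _ (Set.image_mono h))

theorem Weier.aff'_mono (w : Weier L F) {R R' : Subalgebra k L} (h : R ≤ R') :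
    w.aff' R ≤ w.aff' R' :=
  Algebra.adjoin_mono (Set.union_subset_union_left _ (Set.image_mono h))

theorem Weier.inf_mono (w : Weier L F) {R R' : Subalgebra k L} (h : R ≤ R') : w.inf R ≤ w.inf R' := by
  refine Algebra.adjoin_mono (Set.union_subset_union (w.aff'_mono h) ?_)
  rintro g ⟨d, hd, d', hd', hg⟩
  exact ⟨d, w.aff'_mono h hd, d', w.aff'_mono h hd', hg⟩

/-- The generic fibre. -/
def LBun.gen {w : Weier L F} {R : Subalgebra k L} {r : ℕ} (B : LBun w R r) :
    LBun w (⊤ : Subalgebra k L) r where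
  n := B.n
  P := B.P
  I := B.I
  g := B.g
  PI := B.PI
  IP := fun i j => w.aff_mono le_top (B.IP i j)
  hg := B.hg
  glueP := fun i j => (B.glueP i j).imp fun _ h => w.inf_mono le_top h
  glueI := fun i j => (B.glueI i j).imp fun _ h => w.inf_mono le_top h

end

end Pool.Agent.EllHiggs
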