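import Pool.Agent.EllHiggs.Basic

/-!
# MP_fdcaa9_ag: auxiliary definitions, second part
-/

open Polynomial Module

noncomputable section

namespace Pool.Agent.EllHiggs

/-! ### Families of lattices -/

section

variable {k L : Type} [Field k] [Field L] [Algebra k L] {W : Type} [AddCommGroup W] [Module L W]

/-- The set `S` is the lattice at `c` generated by the basis `β`. -/
def IsLat (c : Place k L) {m : ℕ} (β : Basis (Fin m) L W) (S : Set W) : Prop :=
  ∀ w, w ∈ S ↔ ∀ i, β.repr w i ∈ c.O

/-- `Lam` is a family of lattices, almost all of which are standard. -/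
def IsFam (Lam : Place k L → Set W) : Prop :=
  ∃ (m : ℕ) (e : Basis (Fin m) L W), (∀ c, ∃ β : Basis (Fin m) L W, IsLat c β (Lam c)) ∧
    {c : Place k L | ¬ IsLat c e (Lam c)}.Finite

end

/-! ### Vector fields -/

section

variable {k K F : Type} [Field k] [Field K] [Field F] [Algebra k K] [Algebra K F] [Algebra k F]
  [IsScalarTower k K F]

/-- `Dv` is the vertical vector field and `D` is the vector field which is horizontal for the
coordinate `x` and maps the uniformizer at `c` to `1`. -/
structure DerData (w : Weier K F) (c : Place k K) (D Dv : Derivation k F F) : Prop where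
  v_base : ∀ f : K, Dv (algebraMap K F f) = 0
  v_x : Dv w.x = 2 * w.y
  h_x : D w.x = 0
  h_unif : D (algebraMap K F c.unif) = 1
  h_int : ∀ f ∈ c.O, ∃ f' ∈ c.O, D (algebraMap K F f) = algebraMap K F f'
  decomp : ∀ δ : Derivation k F F,
    δ = δ (algebraMap K F c.unif) • D + (δ w.x / (2 * w.y)) • Dv

end

/-! ### Reduction of bundles -/

section

variable {k L F κ : Type} [Field k] [Field L] [Field F] [Field κ] [Algebra k L] [Algebra L F]
  [Algebra k F] [Algebra k κ]

/-- The reduction of the matrix `P`, in the coordinates given by `g`. -/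
def LBun.rP {w : Weier L F} {R : Subalgebra k L} {r : ℕ} (B : LBun w R r) (red : F → κ) :
    Matrix (Fin r) (Fin B.n) κ := (B.g⁻¹ * B.P).map red

/-- The reduction of the matrix `I`, in the coordinates given by `g`. -/
def LBun.rI {w : Weier L F} {R : Subalgebra k L} {r : ℕ} (B : LBun w R r) (red : F → κ) :
    Matrix (Fin B.n) (Fin r) κ := (B.I * B.g).map red

/-- The reduction of an endomorphism, in the coordinates given by `g`. -/
def LBun.rE {w : Weier L F} {R : Subalgebra k L} {r : ℕ} (B : LBun w R r) (red : F → κ)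
    (A : Matrix (Fin r) (Fin r) F) : Matrix (Fin r) (Fin r) κ := (B.g⁻¹ * A * B.g).map red

/-- The sections of `End(m Sigma)` on the special fibre. -/
def LBun.Z {w : Weier L F} {R : Subalgebra k L} {r : ℕ} (B : LBun w R r) (w' : Weier k κ)
    (red : F → κ) (m : ℕ) : Set (Matrix (Fin r) (Fin r) κ) :=
  {C | (∀ i j, (B.rI red * C * B.rP red) i j ∈ w'.aff (⊤ : Subalgebra k k)) ∧
    ∀ i j, w'.zeta ^ m * C i j ∈ w'.inf (⊤ : Subalgebra k k)}

end

end Pool.Agent.EllHiggs
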