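import Mathlib

/-!
# MP_fdcaa9_ag: Higgs bundles on elliptic surfaces and their pull-backs to curves

Let `k` be an algebraically closed field of characteristic zero (the complex numbers in the final
theorem).

* A smooth projective curve over `k` is given by its function field `L` (a finitely generated field
  of transcendence degree one, `IsFunField`); its points are the places of `L`, i.e. the normalized
  discrete valuations of `L` which are trivial on `k` (`Place k L`).
* A vector bundle on the curve is given by its generic fibre and by its stalks (lattices over the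
  valuation rings); its degree is `HasDeg`.
* `Weier L F`: a Weierstrass equation `y^2 = x^3 + a x + b` over the field `L` and its function
  field `F = L(x, y)`.
* `Surf k K F`: a Weierstrass fibration `X` over the curve `B` with function field `K`; for every
  point `c` of `B` the equation in the coordinates `x_c = l^2 x`, `y_c = l^3 y`, `l = lam c`, has
  coefficients in the local ring `O_c`, and its discriminant has order `0` or `1` at `c`: this
  means that the fibre over `c` is smooth, or nodal with `X` smooth. `F` is the function field of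
  `X`. The `j`-invariant is not constant.
* The surface `X` is covered by the charts `X.chart (c, false)` = the ring `O_c[x_c, y_c]` and
  `X.chart (c, true)` = the local ring of `X` at the point where the section at infinity `Sigma`
  meets the fibre over `c`.
* `Bundle X r`: vector bundles of rank `r` on `X`, given by the modules of sections on the charts.
* `Higgs X r`: Higgs bundles; the Higgs field `phi : V → V ⊗ Omega^1` is given by the
  endomorphisms `phi(delta)` of `V`, for vector fields `delta`.
* `TestCurve V L`: a morphism `f : C → X`, `C` the smooth projective curve with function field `L`,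
  with the pulled-back bundle `f^*V`; `TestCurve.IsPulled`: the pulled-back Higgs field.
* `Bundle.IsDiscr V delta`: the discriminant of `V` is `delta`, computed by Riemann-Roch from the
  direct images of `End(V)(n Sigma)`, `n` large, on `B`.
-/

open Polynomial Module

noncomputable section

namespace Pool.Agent.EllHiggs

/-! ### Curves -/

/-- A normalized discrete valuation of `L`, trivial on `k` (with the convention `ord 0 = 0`). -/
structure Place (k L : Type) [Field k] [Field L] [Algebra k L] where
  ord : L → ℤ
  ord_zero : ord 0 = 0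
  ord_mul : ∀ f g, f ≠ 0 → g ≠ 0 → ord (f * g) = ord f + ord g
  ord_add : ∀ f g, f ≠ 0 → g ≠ 0 → f + g ≠ 0 → min (ord f) (ord g) ≤ ord (f + g)
  ord_const : ∀ a : k, ord (algebraMap k L a) = 0
  exists_one : ∃ t, ord t = 1

/-- `L` is a finitely generated extension of `k` of transcendence degree one. -/
def IsFunField (k L : Type) [Field k] [Field L] [Algebra k L] : Prop :=
  ∃ t : L, Transcendental k t ∧ FiniteDimensional (IntermediateField.adjoin k {t}) L

section Curves

variable {k L : Type} [Field k] [Field L] [Algebra k L]

/-- The valuation ring of a place. -/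
def Place.O (c : Place k L) : Subalgebra k L where
  carrier := {f | 0 ≤ c.ord f}
  mul_mem' := by
    intro f g hf hg
    rcases eq_or_ne f 0 with rfl | hf0
    · simp [c.ord_zero]
    rcases eq_or_ne g 0 with rfl | hg0
    · simp [c.ord_zero]
    · change 0 ≤ c.ord f at hf
      change 0 ≤ c.ord g at hg
      change 0 ≤ c.ord (f * g)
      rw [c.ord_mul f g hf0 hg0]; omega
  add_mem' := by
    intro f g hf hg
    rcases eq_or_ne f 0 with rfl | hf0
    · simpa using hg
    rcases eq_or_ne g 0 with rfl | hg0
    · simpa using hf
    rcases eq_or_ne (f + g) 0 with h0 | h0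
    · simp [h0, c.ord_zero]
    · exact le_trans (le_min hf hg) (c.ord_add f g hf0 hg0 h0)
  algebraMap_mem' := fun a => (c.ord_const a).ge

/-- The degree of a vector bundle: `U` is the generic fibre, a finite dimensional `L`-space inside
`W`, and the stalk at the place `c` is the set of all `w` in `U` which belong to `Lam c`; it has to
be the lattice generated over `O_c` by a basis `β` of `U`. If `e` is a fixed basis of `U` then the
degree is minus the sum of the orders of the determinants of the bases `β` with respect to `e`
(almost all of these orders have to be zero). -/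
def HasDeg {W : Type} [AddCommGroup W] [Module L W] (U : Submodule L W) (Lam : Place k L → Set W)
    (D : ℤ) : Prop :=
  ∃ (m : ℕ) (e : Basis (Fin m) L U) (d : Place k L → ℤ), (Function.support d).Finite ∧
    (∀ c, ∃ β : Basis (Fin m) L U,
      (∀ w : U, (w : W) ∈ Lam c ↔ ∀ i, β.repr w i ∈ c.O) ∧ c.ord (e.toMatrix β).det = d c) ∧
    D = - ∑ᶠ c, d c

end Curves

/-! ### Weierstrass equations -/

/-- A Weierstrass equation over `L` with function field `F`. -/
structure Weier (L F : Type) [Field L] [Field F] [Algebra L F] where
  x : F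
  y : F
  a : L
  b : L
  eq : y ^ 2 = x ^ 3 + algebraMap L F a * x + algebraMap L F b
  indep : ∀ p q : L[X], aeval x p + aeval x q * y = 0 → p = 0 ∧ q = 0
  gen : ∀ g : F, ∃ p q d : L[X], d ≠ 0 ∧ g * aeval x d = aeval x p + aeval x q * y

namespace Weier

variable {L F : Type} [Field L] [Field F] [Algebra L F]

/-- Change of coordinates `x ↦ l^2 x`, `y ↦ l^3 y`. -/
def scale (w : Weier L F) (l : L) (hl : l ≠ 0) : Weier L F where
  x := algebraMap L F l ^ 2 * w.x
  y := algebraMap L F l ^ 3 * w.y
  a := l ^ 4 * w.a
  b := l ^ 6 * w.b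
  eq := by
    have := w.eq
    simp only [map_mul, map_pow]
    linear_combination (algebraMap L F l) ^ 6 * this
  indep := by
    intro p q h
    have key : ∀ p : L[X], aeval (algebraMap L F l ^ 2 * w.x) p =
        aeval w.x (p.comp (C (l ^ 2) * X)) := by
      intro p
      rw [aeval_comp]; simp
    have hinj : ∀ p : L[X], p.comp (C (l ^ 2) * X) = 0 → p = 0 := by
      intro p hp
      have h2 : (p.comp (C (l ^ 2) * X)).comp (C ((l ^ 2)⁻¹) * X) = p := by
        rw [comp_assoc]
        have : ((C (l ^ 2) * X : L[X]).comp (C ((l ^ 2)⁻¹) * X)) = X := by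
          simp only [mul_comp, C_comp, X_comp]
          rw [← mul_assoc, ← C_mul, mul_inv_cancel₀ (pow_ne_zero 2 hl), C_1, one_mul]
        rw [this, comp_X]
      rw [← h2, hp, zero_comp]
    rw [key, key] at h
    have h' : aeval w.x (p.comp (C (l ^ 2) * X)) +
        aeval w.x (C (l ^ 3) * q.comp (C (l ^ 2) * X)) * w.y = 0 := by
      rw [← h]; simp only [map_mul, aeval_C, map_pow]; ring
    obtain ⟨h1, h2⟩ := w.indep _ _ h'
    refine ⟨hinj _ h1, hinj _ ?_⟩
    rcases mul_eq_zero.1 h2 with h3 | h3
    · exact absurd (C_eq_zero.1 h3) (pow_ne_zero 3 hl)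
    · exact h3
  gen := by
    intro g
    obtain ⟨p, q, d, hd, h⟩ := w.gen g
    have hF : algebraMap L F l ≠ 0 := (_root_.map_ne_zero _).2 hl
    have key : ∀ p : L[X], aeval (algebraMap L F l ^ 2 * w.x) (p.comp (C ((l ^ 2)⁻¹) * X)) =
        aeval w.x p := by
      intro p
      rw [aeval_comp]; simp only [map_mul, aeval_C, aeval_X, map_inv₀, map_pow]
      rw [← mul_assoc, inv_mul_cancel₀ (pow_ne_zero 2 hF), one_mul]
    refine ⟨p.comp (C ((l ^ 2)⁻¹) * X), C ((l ^ 3)⁻¹) * q.comp (C ((l ^ 2)⁻¹) * X),
      d.comp (C ((l ^ 2)⁻¹) * X), ?_, ?_⟩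
    · intro h0
      have := key d
      rw [h0, map_zero] at this
      exact hd (w.indep d 0 (by rw [← this]; simp)).1
    · simp only [map_mul, key, aeval_C, map_inv₀, map_pow]
      rw [h]
      field_simp

variable {k : Type} [Field k] [Algebra k L] [Algebra k F]

/-- The affine ring `R[x, y]`. -/
def aff (w : Weier L F) (R : Subalgebra k L) : Subalgebra k F :=
  Algebra.adjoin k (algebraMap L F '' (R : Set L) ∪ {w.x, w.y})

/-- The affine ring `R[x/y, 1/y]` of the second standard chart. -/
def aff' (w : Weier L F) (R : Subalgebra k L) : Subalgebra k F :=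
  Algebra.adjoin k (algebraMap L F '' (R : Set L) ∪ {w.x / w.y, 1 / w.y})

/-- The localization of `R[x/y, 1/y]` at the elements `1 + (x/y) d + (1/y) d'`. If `R` is a local
ring, this is the localization of `R[x/y, 1/y]` at its maximal ideal generated by `x/y`, `1/y` and
the maximal ideal of `R`: the local ring at the closed point of the section at infinity. -/
def inf (w : Weier L F) (R : Subalgebra k L) : Subalgebra k F :=
  Algebra.adjoin k ((w.aff' R : Set F) ∪
    {g | ∃ d ∈ w.aff' R, ∃ d' ∈ w.aff' R, g * (1 + w.x / w.y * d + 1 / w.y * d') = 1})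

end Weier

/-! ### Surfaces, bundles and Higgs bundles -/

/-- Non-isotrivial Weierstrass fibrations `X → B`, `X` smooth, with nodal singular fibres. -/
structure Surf (k K F : Type) [Field k] [Field K] [Field F] [Algebra k K] [Algebra K F]
    extends Weier K F where
  lam : Place k K → K
  lam_ne : ∀ c, lam c ≠ 0
  int_a : ∀ c : Place k K, lam c ^ 4 * a ∈ c.O
  int_b : ∀ c : Place k K, lam c ^ 6 * b ∈ c.O
  disc_ne : 4 * a ^ 3 + 27 * b ^ 2 ≠ 0
  disc : ∀ c : Place k K, c.ord (lam c ^ 12 * (4 * a ^ 3 + 27 * b ^ 2)) = 0 ∨
    c.ord (lam c ^ 12 * (4 * a ^ 3 + 27 * b ^ 2)) = 1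
  nonconst : ∀ s : k, a ^ 3 ≠ algebraMap k K s * (4 * a ^ 3 + 27 * b ^ 2)

section Surfaces

variable {k K F : Type} [Field k] [Field K] [Field F] [Algebra k K] [Algebra K F] [Algebra k F]
  [IsScalarTower k K F]

/-- The Weierstrass equation which is minimal at `c`. -/
def Surf.loc (X : Surf k K F) (c : Place k K) : Weier K F := X.toWeier.scale (X.lam c) (X.lam_ne c)

/-- The charts of `X`: for `(c, false)` the ring `O_c[x_c, y_c]`, for `(c, true)` the local ring
of the point of `Sigma` over `c`. -/
def Surf.chart (X : Surf k K F) (j : Place k K × Bool) : Subalgebra k F :=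
  if j.2 then (X.loc j.1).inf j.1.O else (X.loc j.1).aff j.1.O

variable (X : Surf k K F) (r : ℕ)

/-- Vector bundles of rank `r` on `X`: finitely generated projective modules over the rings of the
charts, which coincide on the intersections of the charts, and which are generated by fixed finite
sets for almost all points `c` of `B`. -/
structure Bundle where
  lat : (j : Place k K × Bool) → Submodule (X.chart j) (Fin r → F)
  finite : ∀ j, Module.Finite (X.chart j) (lat j)
  projective : ∀ j, Module.Projective (X.chart j) (lat j)
  span_top : ∀ j, Submodule.span F (lat j : Set (Fin r → F)) = ⊤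
  glue : ∀ i j, (Submodule.span ↥(X.chart i ⊔ X.chart j) (lat i : Set (Fin r → F))) =
    Submodule.span ↥(X.chart i ⊔ X.chart j) (lat j : Set (Fin r → F))
  coherent : ∀ s : Bool, ∃ T : Set (Fin r → F), T.Finite ∧
    {c : Place k K | lat (c, s) ≠ Submodule.span (X.chart (c, s)) T}.Finite

/-- Higgs bundles on `X`. -/
structure Higgs extends Bundle X r where
  phi : Derivation k F F →ₗ[F] Matrix (Fin r) (Fin r) F
  comm : ∀ δ δ', phi δ * phi δ' = phi δ' * phi δ
  regular : ∀ j δ, (∀ g ∈ X.chart j, δ g ∈ X.chart j) →
    ∀ v ∈ lat j, (phi δ).mulVec v ∈ lat j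

variable {X r}

/-- A smooth projective curve `C` with function field `L`, a morphism `f : C → X` and the bundle
`f^*V`.

`O` is a ring of rational functions on `X` which are defined at the image of the generic point of
`C`, and `e` is the pull-back of these functions. The chart `j0` contains the image of the generic
point; the image of every point `c` of `C` is contained in a chart `j` (`chart`). `W` is the generic
fibre of `f^*V`, `psi` the pull-back of sections (it is only used on the `O`-module generated by
the sections of `V` on the chart `j0`), and `Lam c` is the stalk of `f^*V` at `c`. -/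
structure TestCurve (V : Higgs X r) (L : Type) [Field L] [Algebra k L] where
  O : Subalgebra k F
  e : O →ₐ[k] L
  j0 : Place k K × Bool
  j0_le : X.chart j0 ≤ O
  W : Type
  [acg : AddCommGroup W]
  [mod : Module L W]
  rank : finrank L W = r
  psi : (Fin r → F) → W
  psi_add : ∀ v ∈ Submodule.span O (V.lat j0 : Set (Fin r → F)),
    ∀ v' ∈ Submodule.span O (V.lat j0 : Set (Fin r → F)), psi (v + v') = psi v + psi v'
  psi_smul : ∀ g : O, ∀ v ∈ Submodule.span O (V.lat j0 : Set (Fin r → F)),
    psi (g • v) = e g • psi v
  spans : Submodule.span L (psi '' (V.lat j0 : Set (Fin r → F))) = ⊤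
  Lam : Place k L → Set W
  chart : ∀ c, ∃ (j : Place k K × Bool) (h : X.chart j ≤ O),
    (∀ (g : F) (hg : g ∈ X.chart j), e ⟨g, h hg⟩ ∈ c.O) ∧
    Lam c = (Submodule.span c.O (psi '' (V.lat j : Set (Fin r → F))) : Set W)

attribute [instance] TestCurve.acg TestCurve.mod

/-- The value `Φ` of the pulled-back Higgs field at the vector field `D` of the curve `C`: if the
derivation `D ∘ e` of the functions on the chart `j0` is `∑ c_i (e ∘ δ_i)` with vector fields
`δ_i` on the chart, then `Φ` is `∑ c_i phi(δ_i)`, on the generic fibre `W` of `f^*V`. -/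
def TestCurve.IsPulled {V : Higgs X r} {L : Type} [Field L] [Algebra k L] (t : TestCurve V L)
    (D : Derivation k L L) (Φ : Module.End L t.W) : Prop :=
  ∃ (n : ℕ) (s : Fin n → L) (δ : Fin n → Derivation k F F)
    (h : ∀ i, ∀ g ∈ X.chart t.j0, δ i g ∈ X.chart t.j0),
    (∀ (g : F) (hg : g ∈ X.chart t.j0),
      D (t.e ⟨g, t.j0_le hg⟩) = ∑ i, s i * t.e ⟨δ i g, t.j0_le (h i g hg)⟩) ∧
    ∀ v ∈ V.lat t.j0, Φ (t.psi v) = ∑ i, s i • t.psi ((V.phi (δ i)).mulVec v)

/-- The pulled-back Higgs bundle is not semistable: there is a subspace `U` of the generic fibre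
which is invariant under the Higgs field such that the corresponding subbundle has larger slope. -/
def TestCurve.Unstable {V : Higgs X r} {L : Type} [Field L] [Algebra k L] (t : TestCurve V L) :
    Prop :=
  ∃ U : Submodule L t.W, (∀ D Φ, t.IsPulled D Φ → ∀ w ∈ U, Φ w ∈ U) ∧
    ∃ D D' : ℤ, HasDeg U t.Lam D ∧ HasDeg (⊤ : Submodule L t.W) t.Lam D' ∧
      D' * (finrank L U : ℤ) < D * (r : ℤ)

/-- All pull-backs of the Higgs bundle to curves are semistable. -/
def Higgs.CurveSemistable (V : Higgs X r) : Prop :=
  ∀ (L : Type) [Field L] [Algebra k L], IsFunField k L → ∀ t : TestCurve V L, ¬ t.Unstable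

/-! ### The discriminant -/

/-- The parameter `x_c / y_c` at the section at infinity. -/
def Surf.zeta (X : Surf k K F) (c : Place k K) : F := (X.loc c).x / (X.loc c).y

/-- The stalk at `c` of the direct image of `End(V)(n Sigma)`. -/
def Bundle.endLat (V : Bundle X r) (n : ℕ) (c : Place k K) : Set (Matrix (Fin r) (Fin r) F) :=
  {A | (∀ v ∈ V.lat (c, false), A.mulVec v ∈ V.lat (c, false)) ∧
    ∀ v ∈ V.lat (c, true), X.zeta c ^ n • A.mulVec v ∈ V.lat (c, true)}

/-- The generic fibre of the direct image of `End(V)(n Sigma)`. -/
def Bundle.endGen (V : Bundle X r) (n : ℕ) : Submodule K (Matrix (Fin r) (Fin r) F) :=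
  Submodule.span K (⋃ c, V.endLat n c)

variable (X) in
/-- The stalk at `c` of the direct image of `O(n Sigma)`. -/
def Surf.funLat (n : ℕ) (c : Place k K) : Set F :=
  {g | g ∈ X.chart (c, false) ∧ X.zeta c ^ n * g ∈ X.chart (c, true)}

variable (X) in
/-- The generic fibre of the direct image of `O(n Sigma)`. -/
def Surf.funGen (n : ℕ) : Submodule K F := Submodule.span K (⋃ c, X.funLat n c)

/-- The discriminant `2 r c_2(V) - (r-1) c_1(V)^2 = c_2(End V)` is equal to `δ`. By the theorem of
Grothendieck-Riemann-Roch for `π : X → B`, for all large `n` the degree of `π_* (End(V)(n Sigma))`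
is `r^2 deg π_* (O(n Sigma)) - δ`. -/
def Bundle.IsDiscr (V : Bundle X r) (δ : ℤ) : Prop :=
  ∃ n0 : ℕ, ∀ n ≥ n0, ∃ D D' : ℤ, HasDeg (V.endGen n) (V.endLat n) D ∧
    HasDeg (X.funGen n) (X.funLat n) D' ∧ δ = (r : ℤ) ^ 2 * D' - D

end Surfaces

end Pool.Agent.EllHiggs
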