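import Pool.Agent.EllHiggs.PlaceRes
import Pool.Agent.MP_b814b1_ag.Rings0
import Pool.Agent.MP_b814b1_ag.Rings1
import Pool.Agent.MP_b814b1_ag.Bundle
import Pool.Agent.MP_b814b1_ag.IsoInv
import Pool.Agent.MP_b814b1_ag.Mult
import Pool.Agent.MP_b814b1_ag.Steps

/-!
# MP_fdcaa9_ag: the degree theory behind module ProdForm
-/

open Module Polynomial

noncomputable section

namespace Pool.Agent.EllHiggs

namespace PF

open Pool.Agent.MP_b814b1_ag

/-- The valuation rings. -/
def pl (kk L : Type) [Field kk] [Field L] [Algebra kk L] : Set (Subalgebra kk L) :=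
  {c | c ≠ ⊤ ∧ ∀ r : L, r ∈ c ∨ r⁻¹ ∈ c}

section Orders

variable {kk L : Type} [Field kk] [Field L] [Algebra kk L]

/-- `o` is the order function of the discrete valuation ring `c` (with residue field `k`);
`o 0 = 0` by convention. -/
structure IsOrd (c : Subalgebra kk L) (o : L → ℤ) : Prop where
  zero : o 0 = 0
  mul : ∀ f g, f ≠ 0 → g ≠ 0 → o (f * g) = o f + o g
  mem : ∀ f, f ≠ 0 → (f ∈ c ↔ 0 ≤ o f)
  surj : ∃ f, f ≠ 0 ∧ o f = 1
  res : ∀ f ∈ c, ∃ s : kk, f = algebraMap kk L s ∨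
    (f - algebraMap kk L s ≠ 0 ∧ 0 < o (f - algebraMap kk L s))

open Classical in
/-- The order of `f` at the point `c`. -/
def ordv (c : Subalgebra kk L) : L → ℤ :=
  if h : ∃ o, IsOrd c o then Classical.choose h else 0

/-- `f` is zero or of order at least `m` at `c`. -/
def MemP (c : Subalgebra kk L) (m : ℤ) (f : L) : Prop := f = 0 ∨ m ≤ ordv c f

open Classical in
/-- The value of `f` at `c`. -/
def resid (c : Subalgebra kk L) (f : L) : kk :=
  if h : ∃ s : kk, MemP c 1 (f - algebraMap kk L s) then Classical.choose h else 0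

/-- `f` is non-zero and does not vanish at `c`: the inverse is regular. -/
def InvIn (c : Subalgebra kk L) (f : L) : Prop := f ≠ 0 ∧ f⁻¹ ∈ c

variable {n : ℕ}

/-- Frames of a vector bundle at the points of a curve, almost all of them equivalent to the
standard frame. -/
structure IsFr (h : pl kk L → Matrix (Fin n) (Fin n) L) : Prop where
  det : ∀ c, (h c).det ≠ 0
  fin : {c : pl kk L | ¬ ((∀ k l, h c k l ∈ c.1) ∧ ∀ k l, (h c)⁻¹ k l ∈ c.1)}.Finite

/-- `E` is the vector bundle with frame `h c` at `c`. -/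
def IsPair (h : pl kk L → Matrix (Fin n) (Fin n) L) {t : L} (E : Pair kk t (Fin n → L)) : Prop :=
  (∀ v : Fin n → L, v ∈ E.L0 ↔ ∀ c : pl kk L, t ∈ c.1 → ∀ k, (((h c)⁻¹).mulVec v) k ∈ c.1) ∧
  (∀ v : Fin n → L, v ∈ E.L1 ↔ ∀ c : pl kk L, t ∉ c.1 → ∀ k, (((h c)⁻¹).mulVec v) k ∈ c.1)

end Orders

section P1

section A

variable {kk L : Type} [Field kk] [Field L] [Algebra kk L]

theorem IsOrd.ordv_of {c : Subalgebra kk L} {o : L → ℤ} (h : IsOrd c o) : IsOrd c (ordv c) := by
  have hex : ∃ o, IsOrd c o := ⟨o, h⟩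
  unfold ordv
  rw [dif_pos hex]
  exact Classical.choose_spec hex

namespace IsOrd

variable {c : Subalgebra kk L} {o : L → ℤ}

theorem one_eq (h : IsOrd c o) : o 1 = 0 := by
  have := h.mul 1 1 one_ne_zero one_ne_zero
  rw [mul_one] at this
  omega

theorem inv_eq (h : IsOrd c o) (f : L) : o f⁻¹ = -o f := by
  by_cases hf : f = 0
  · rw [hf, inv_zero, h.zero, neg_zero]
  · have := h.mul f f⁻¹ hf (inv_ne_zero hf)
    rw [mul_inv_cancel₀ hf, h.one_eq] at this
    omega

theorem pow_eq (h : IsOrd c o) (f : L) (m : ℕ) : o (f ^ m) = m * o f := by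
  by_cases hf : f = 0
  · rcases Nat.eq_zero_or_pos m with hm | hm
    · rw [hm, pow_zero, h.one_eq]; simp
    · rw [hf, zero_pow hm.ne', h.zero, mul_zero]
  · induction m with
    | zero => rw [pow_zero, h.one_eq]; simp
    | succ m ih =>
      rw [pow_succ, h.mul _ _ (pow_ne_zero m hf) hf, ih]
      push_cast; ring

theorem zpow_eq (h : IsOrd c o) {f : L} (hf : f ≠ 0) (m : ℤ) : o (f ^ m) = m * o f := by
  obtain ⟨n, rfl | rfl⟩ := m.eq_nat_or_neg
  · rw [zpow_natCast, h.pow_eq]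
  · rw [zpow_neg, zpow_natCast, h.inv_eq, h.pow_eq]; ring

/-- `f ∈ c` if the order is nonnegative -/
theorem mem_of (h : IsOrd c o) {f : L} (hf : 0 ≤ o f) : f ∈ c := by
  by_cases h0 : f = 0
  · rw [h0]; exact zero_mem c
  · exact (h.mem f h0).2 hf

theorem nonneg (h : IsOrd c o) {f : L} (hf : f ∈ c) : 0 ≤ o f := by
  by_cases h0 : f = 0
  · rw [h0, h.zero]
  · exact (h.mem f h0).1 hf

/-- the ultrametric inequality -/
theorem add_le (h : IsOrd c o) {m : ℤ} {f g : L} (hf : f = 0 ∨ m ≤ o f) (hg : g = 0 ∨ m ≤ o g) :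
    f + g = 0 ∨ m ≤ o (f + g) := by
  obtain ⟨q, hq0, hq⟩ := h.surj
  by_cases hfg : f + g = 0
  · exact Or.inl hfg
  right
  have hqm : q ^ m ≠ 0 := zpow_ne_zero m hq0
  have hqm' : q ^ (-m) ≠ 0 := zpow_ne_zero _ hq0
  have h1 : f * q ^ (-m) ∈ c := by
    rcases hf with rfl | hf
    · rw [zero_mul]; exact zero_mem c
    · by_cases hf0 : f = 0
      · rw [hf0, zero_mul]; exact zero_mem c
      apply h.mem_of
      rw [h.mul _ _ hf0 hqm', h.zpow_eq hq0, hq]
      omega
  have h2 : g * q ^ (-m) ∈ c := by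
    rcases hg with rfl | hg
    · rw [zero_mul]; exact zero_mem c
    · by_cases hg0 : g = 0
      · rw [hg0, zero_mul]; exact zero_mem c
      apply h.mem_of
      rw [h.mul _ _ hg0 hqm', h.zpow_eq hq0, hq]
      omega
  have h3 : (f + g) * q ^ (-m) ∈ c := by rw [add_mul]; exact add_mem h1 h2
  have h4 := h.nonneg h3
  rw [h.mul _ _ hfg hqm', h.zpow_eq hq0, hq] at h4
  omega

theorem unit_iff (h : IsOrd c o) {f : L} (hf : f ≠ 0) : o f = 0 ↔ f ∈ c ∧ f⁻¹ ∈ c := by
  rw [h.mem f hf, h.mem _ (inv_ne_zero hf), h.inv_eq]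
  omega

theorem unique {c : Subalgebra kk L} {o o' : L → ℤ} (h : IsOrd c o) (h' : IsOrd c o') :
    o = o' := by
  obtain ⟨q, hq0, hq⟩ := h.surj
  obtain ⟨q', hq0', hq'⟩ := h'.surj
  -- every element is a unit times a power of `q`
  have key : ∀ f, f ≠ 0 → o' f = o f * o' q := by
    intro f hf
    have hqm : q ^ (-(o f)) ≠ 0 := zpow_ne_zero _ hq0
    have hu : f * q ^ (-(o f)) ≠ 0 := mul_ne_zero hf hqm
    have h1 : o (f * q ^ (-(o f))) = 0 := by
      rw [h.mul _ _ hf hqm, h.zpow_eq hq0, hq]; ring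
    have h2 : o' (f * q ^ (-(o f))) = 0 := (h'.unit_iff hu).2 ((h.unit_iff hu).1 h1)
    rw [h'.mul _ _ hf hqm, h'.zpow_eq hq0] at h2
    linarith
  have h1 := key q' hq0'
  rw [hq'] at h1
  have h2 : 0 ≤ o' q := h'.nonneg (h.mem_of (by rw [hq]; norm_num))
  have h3 : o' q = 1 := by
    have hdvd : o' q ∣ 1 := ⟨o q', by rw [h1]; ring⟩
    exact Int.eq_one_of_dvd_one h2 hdvd
  funext f
  by_cases hf : f = 0
  · rw [hf, h.zero, h'.zero]
  · rw [key f hf, h3, mul_one]

theorem memP_zero {c : Subalgebra kk L} (h : IsOrd c (ordv c)) (f : L) :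
    MemP c 0 f ↔ f ∈ c := by
  constructor
  · rintro (rfl | hf)
    · exact zero_mem c
    · exact h.mem_of hf
  · intro hf
    by_cases h0 : f = 0
    · exact Or.inl h0
    · exact Or.inr ((h.mem f h0).1 hf)

theorem memP_add {c : Subalgebra kk L} (h : IsOrd c (ordv c)) {m : ℤ} {f g : L}
    (hf : MemP c m f) (hg : MemP c m g) : MemP c m (f + g) := h.add_le hf hg

theorem memP_mul {c : Subalgebra kk L} (h : IsOrd c (ordv c)) {m m' : ℤ} {f g : L}
    (hf : MemP c m f) (hg : MemP c m' g) : MemP c (m + m') (f * g) := by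
  by_cases hf0 : f = 0
  · left; rw [hf0, zero_mul]
  by_cases hg0 : g = 0
  · left; rw [hg0, mul_zero]
  right
  rw [h.mul _ _ hf0 hg0]
  have h1 := hf.resolve_left hf0
  have h2 := hg.resolve_left hg0
  omega

theorem memP_mono {c : Subalgebra kk L} {m m' : ℤ} {f : L}
    (hf : MemP c m f) (hm : m' ≤ m) : MemP c m' f := hf.imp id fun h => hm.trans h

theorem memP_zero' (c : Subalgebra kk L) (m : ℤ) : MemP c m 0 := Or.inl rfl

theorem memP_sum {c : Subalgebra kk L} (h : IsOrd c (ordv c)) {m : ℤ} {ι : Type}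
    (s : Finset ι) (f : ι → L) (hf : ∀ i ∈ s, MemP c m (f i)) : MemP c m (∑ i ∈ s, f i) := by
  classical
  induction s using Finset.induction_on with
  | empty => rw [Finset.sum_empty]; exact Or.inl rfl
  | insert i s hi ih =>
    rw [Finset.sum_insert hi]
    exact h.memP_add (hf i (Finset.mem_insert_self i s))
      (ih fun j hj => hf j (Finset.mem_insert_of_mem hj))

theorem ordv_one {c : Subalgebra kk L} (h : IsOrd c (ordv c)) : ordv c 1 = 0 := h.one_eq

theorem ordv_mul {c : Subalgebra kk L} (h : IsOrd c (ordv c)) {f g : L} (hf : f ≠ 0)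
    (hg : g ≠ 0) : ordv c (f * g) = ordv c f + ordv c g := h.mul f g hf hg

theorem ordv_inv {c : Subalgebra kk L} (h : IsOrd c (ordv c)) (f : L) :
    ordv c f⁻¹ = -ordv c f := h.inv_eq f

theorem ordv_div {c : Subalgebra kk L} (h : IsOrd c (ordv c)) {f g : L} (hf : f ≠ 0)
    (hg : g ≠ 0) : ordv c (f / g) = ordv c f - ordv c g := by
  rw [div_eq_mul_inv, h.mul _ _ hf (inv_ne_zero hg), h.inv_eq]; ring

theorem ordv_pow {c : Subalgebra kk L} (h : IsOrd c (ordv c)) (f : L) (m : ℕ) :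
    ordv c (f ^ m) = m * ordv c f := h.pow_eq f m

theorem ordv_zpow {c : Subalgebra kk L} (h : IsOrd c (ordv c)) {f : L} (hf : f ≠ 0) (m : ℤ) :
    ordv c (f ^ m) = m * ordv c f := h.zpow_eq hf m

theorem ordv_neg {c : Subalgebra kk L} (h : IsOrd c (ordv c)) (f : L) :
    ordv c (-f) = ordv c f := by
  by_cases hf : f = 0
  · rw [hf, neg_zero]
  have h1 : ordv c ((-1 : L) ^ 2) = 2 * ordv c (-1 : L) := by
    rw [h.ordv_pow]; norm_num
  rw [neg_one_sq, h.ordv_one] at h1
  have h2 : (-f : L) = -1 * f := by ring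
  rw [h2, h.mul _ _ (by norm_num) hf]
  omega

theorem ordv_sub_comm {c : Subalgebra kk L} (h : IsOrd c (ordv c)) (f g : L) :
    ordv c (f - g) = ordv c (g - f) := by
  rw [← h.ordv_neg, neg_sub]

theorem memP_neg {c : Subalgebra kk L} (h : IsOrd c (ordv c)) {m : ℤ} {f : L}
    (hf : MemP c m f) : MemP c m (-f) := by
  rcases hf with rfl | hf
  · left; rw [neg_zero]
  · right; rw [h.ordv_neg]; exact hf

theorem memP_sub {c : Subalgebra kk L} (h : IsOrd c (ordv c)) {m : ℤ} {f g : L}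
    (hf : MemP c m f) (hg : MemP c m g) : MemP c m (f - g) := by
  rw [sub_eq_add_neg]; exact h.memP_add hf (h.memP_neg hg)

/-- constants are units -/
theorem ordv_const {c : Subalgebra kk L} (h : IsOrd c (ordv c)) (s : kk) :
    ordv c (algebraMap kk L s) = 0 := by
  by_cases hs : s = 0
  · rw [hs, map_zero, h.zero]
  · have hs' : algebraMap kk L s ≠ 0 := by
      rwa [Ne, map_eq_zero_iff _ (algebraMap kk L).injective]
    rw [h.unit_iff hs', ← map_inv₀]
    exact ⟨c.algebraMap_mem s, c.algebraMap_mem _⟩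

theorem memP_const {c : Subalgebra kk L} (h : IsOrd c (ordv c)) (s : kk) :
    MemP c 0 (algebraMap kk L s) := Or.inr (h.ordv_const s).ge

/-- the order of a sum, if the orders are different -/
theorem ordv_add_eq {c : Subalgebra kk L} (h : IsOrd c (ordv c)) {f g : L} (hf : f ≠ 0)
    (hg : g = 0 ∨ ordv c f < ordv c g) : f + g ≠ 0 ∧ ordv c (f + g) = ordv c f := by
  rcases hg with rfl | hg
  · rw [add_zero]; exact ⟨hf, rfl⟩
  have h0 : f + g ≠ 0 := by
    intro h0
    have : f = -g := eq_neg_of_add_eq_zero_left h0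
    rw [this, h.ordv_neg] at hg
    exact lt_irrefl _ hg
  refine ⟨h0, ?_⟩
  have h1 : MemP c (ordv c f) (f + g) := h.memP_add (Or.inr le_rfl) (Or.inr hg.le)
  have h1' := h1.resolve_left h0
  by_contra hne
  have h2 : ordv c f + 1 ≤ ordv c (f + g) := by omega
  have h3 : MemP c (ordv c f + 1) ((f + g) - g) :=
    h.memP_sub (Or.inr h2) (Or.inr (by omega))
  rw [add_sub_cancel_right] at h3
  have := h3.resolve_left hf
  omega

theorem invIn_iff {c : Subalgebra kk L} (h : IsOrd c (ordv c)) (f : L) (hf : f ∈ c) :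
    InvIn c f ↔ f ≠ 0 ∧ ordv c f = 0 := by
  constructor
  · rintro ⟨h0, h1⟩
    exact ⟨h0, (h.unit_iff h0).2 ⟨hf, h1⟩⟩
  · rintro ⟨h0, h1⟩
    exact ⟨h0, ((h.unit_iff h0).1 h1).2⟩

/-- the value map -/
theorem resid_spec {c : Subalgebra kk L} (h : IsOrd c (ordv c)) {f : L} (hf : f ∈ c) :
    MemP c 1 (f - algebraMap kk L (resid c f)) := by
  have hex : ∃ s : kk, MemP c 1 (f - algebraMap kk L s) := by
    obtain ⟨s, hs | ⟨-, hs⟩⟩ := h.res f hf
    · exact ⟨s, Or.inl (by rw [← hs, sub_self])⟩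
    · exact ⟨s, Or.inr (by omega)⟩
  have : resid c f = Classical.choose hex := by
    unfold resid
    rw [dif_pos hex]
  rw [this]
  exact Classical.choose_spec hex

/-- the value is unique -/
theorem resid_unique {c : Subalgebra kk L} (h : IsOrd c (ordv c)) {f : L} {s : kk}
    (hs : MemP c 1 (f - algebraMap kk L s)) : resid c f = s := by
  have hf : f ∈ c := by
    have h1 : f = (f - algebraMap kk L s) + algebraMap kk L s := by ring
    rw [h1]
    exact add_mem ((h.memP_zero _).1 (memP_mono hs (by norm_num))) (c.algebraMap_mem s)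
  have h1 := h.memP_sub hs (h.resid_spec hf)
  have h2 : f - algebraMap kk L s - (f - algebraMap kk L (resid c f)) =
      algebraMap kk L (resid c f - s) := by rw [map_sub]; ring
  rw [h2] at h1
  rcases h1 with h1 | h1
  · rw [map_eq_zero_iff _ (algebraMap kk L).injective, sub_eq_zero] at h1
    exact h1
  · rw [h.ordv_const] at h1
    omega

theorem resid_const {c : Subalgebra kk L} (h : IsOrd c (ordv c)) (s : kk) :
    resid c (algebraMap kk L s) = s := h.resid_unique (Or.inl (sub_self _))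

theorem resid_add {c : Subalgebra kk L} (h : IsOrd c (ordv c)) {f g : L} (hf : f ∈ c)
    (hg : g ∈ c) : resid c (f + g) = resid c f + resid c g := by
  apply h.resid_unique
  have : f + g - algebraMap kk L (resid c f + resid c g) =
      (f - algebraMap kk L (resid c f)) + (g - algebraMap kk L (resid c g)) := by
    rw [map_add]; ring
  rw [this]
  exact h.memP_add (h.resid_spec hf) (h.resid_spec hg)

theorem resid_mul {c : Subalgebra kk L} (h : IsOrd c (ordv c)) {f g : L} (hf : f ∈ c)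
    (hg : g ∈ c) : resid c (f * g) = resid c f * resid c g := by
  apply h.resid_unique
  have : f * g - algebraMap kk L (resid c f * resid c g) =
      (f - algebraMap kk L (resid c f)) * g +
        algebraMap kk L (resid c f) * (g - algebraMap kk L (resid c g)) := by
    rw [map_mul]; ring
  rw [this]
  refine h.memP_add ?_ ?_
  · have := h.memP_mul (h.resid_spec hf) ((h.memP_zero g).2 hg)
    rwa [add_zero] at this
  · have := h.memP_mul (h.memP_const (resid c f)) (h.resid_spec hg)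
    rwa [zero_add] at this

theorem exists_residHom {c : Subalgebra kk L} (h : IsOrd c (ordv c)) :
    ∃ e : c →ₐ[kk] kk, ∀ r : c, e r = resid c r := by
  refine ⟨{ toFun := fun r => resid c r
            map_one' := ?_
            map_mul' := fun r s => h.resid_mul r.2 s.2
            map_zero' := ?_
            map_add' := fun r s => h.resid_add r.2 s.2
            commutes' := fun s => h.resid_const s }, fun r => rfl⟩
  · have := h.resid_const 1
    rwa [map_one] at this
  · have := h.resid_const 0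
    rwa [map_zero] at this

theorem resid_eq_zero {c : Subalgebra kk L} (h : IsOrd c (ordv c)) {f : L} (hf : f ∈ c) :
    resid c f = 0 ↔ MemP c 1 f := by
  constructor
  · intro h0
    have := h.resid_spec hf
    rwa [h0, map_zero, sub_zero] at this
  · intro h1
    apply h.resid_unique
    rwa [map_zero, sub_zero]

/-- units have nonzero value -/
theorem resid_ne_zero_iff {c : Subalgebra kk L} (h : IsOrd c (ordv c)) {f : L} (hf : f ∈ c) :
    resid c f ≠ 0 ↔ InvIn c f := by
  rw [h.invIn_iff f hf, Ne, h.resid_eq_zero hf]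
  have := h.nonneg hf
  constructor
  · intro h1
    refine ⟨fun h0 => h1 (Or.inl h0), ?_⟩
    by_contra h2
    exact h1 (Or.inr (by omega))
  · rintro ⟨h1, h2⟩ (h3 | h3)
    · exact h1 h3
    · omega

theorem mem_pl {c : Subalgebra kk L} (h : IsOrd c (ordv c)) : c ∈ pl kk L := by
  obtain ⟨q, hq0, hq⟩ := h.surj
  refine ⟨?_, fun r => ?_⟩
  · intro htop
    have h1 : q⁻¹ ∈ c := by rw [htop]; trivial
    have := h.nonneg h1
    rw [h.inv_eq, hq] at this
    omega
  · by_cases hr : 0 ≤ ordv c r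
    · exact Or.inl (h.mem_of hr)
    · right
      apply h.mem_of
      rw [h.inv_eq]
      omega

/-- every element is a unit times a power of a local parameter -/
theorem exists_unit_mul {c : Subalgebra kk L} (h : IsOrd c (ordv c)) {q : L}
    (hq : ordv c q = 1) {f : L} (hf : f ≠ 0) :
    ∃ r : L, r ≠ 0 ∧ r ∈ c ∧ r⁻¹ ∈ c ∧ f = r * q ^ (ordv c f) := by
  have hq0 : q ≠ 0 := by
    rintro rfl
    rw [h.zero] at hq
    omega
  have hqm : q ^ (-(ordv c f)) ≠ 0 := zpow_ne_zero _ hq0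
  have hu : f * q ^ (-(ordv c f)) ≠ 0 := mul_ne_zero hf hqm
  have h1 : ordv c (f * q ^ (-(ordv c f))) = 0 := by
    rw [h.mul _ _ hf hqm, h.zpow_eq hq0, hq]; ring
  refine ⟨_, hu, ((h.unit_iff hu).1 h1).1, ((h.unit_iff hu).1 h1).2, ?_⟩
  rw [mul_assoc, ← zpow_add₀ hq0]
  simp

end IsOrd

end A


end P1

section P2
open IsDedekindDomain WithZero

namespace A1

section Abs

variable {kk L : Type} [Field kk] [IsAlgClosed kk] [CharZero kk] [Field L] [Algebra kk L] (A : Subalgebra kk L) [IsDedekindDomain A]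
  [IsFractionRing A L]

/-- The order function of a nonzero prime. -/
def oo (v : HeightOneSpectrum A) (f : L) : ℤ := -log (v.valuation L f)

/-- The valuation ring of a nonzero prime. -/
def rr (v : HeightOneSpectrum A) : Subalgebra kk L where
  carrier := {f | v.valuation L f ≤ 1}
  mul_mem' := by
    intro a b ha hb
    rw [Set.mem_ofPred_eq, map_mul]
    exact mul_le_one' ha hb
  add_mem' := by
    intro a b ha hb
    exact (v.valuation L).map_add_le ha hb
  algebraMap_mem' := fun s => v.valuation_le_one (K := L) (algebraMap kk A s)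

theorem mem_rr (v : HeightOneSpectrum A) (f : L) : f ∈ rr A v ↔ v.valuation L f ≤ 1 := Iff.rfl

theorem oo_nonneg (v : HeightOneSpectrum A) (f : L) (hf : f ≠ 0) :
    0 ≤ oo A v f ↔ v.valuation L f ≤ 1 := by
  have h : v.valuation L f ≠ 0 := (Valuation.ne_zero_iff _).2 hf
  rw [oo, neg_nonneg, log_le_iff_le_exp h, exp_zero]

theorem oo_pos (v : HeightOneSpectrum A) (f : L) (hf : f ≠ 0) :
    0 < oo A v f ↔ v.valuation L f < 1 := by
  have h : v.valuation L f ≠ 0 := (Valuation.ne_zero_iff _).2 hf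
  rw [oo, neg_pos, log_lt_iff_lt_exp h, exp_zero]

theorem isOrd_rr (hres : ∀ I : Ideal A, I.IsMaximal → finrank kk (A ⧸ I) = 1)
    (v : HeightOneSpectrum A) : IsOrd (rr A v) (oo A v) where
  zero := by simp [oo]
  mul f g hf hg := by
    have hf' : v.valuation L f ≠ 0 := (Valuation.ne_zero_iff _).2 hf
    have hg' : v.valuation L g ≠ 0 := (Valuation.ne_zero_iff _).2 hg
    rw [oo, map_mul, log_mul hf' hg', oo, oo]
    ring
  mem f hf := by rw [oo_nonneg A v f hf, mem_rr]
  surj := by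
    obtain ⟨π, hπ⟩ := v.valuation_exists_uniformizer L
    refine ⟨π, ?_, ?_⟩
    · rintro rfl
      rw [map_zero] at hπ
      exact exp_ne_zero hπ.symm
    · rw [oo, hπ, log_exp]
      norm_num
  res f hf := by
    have hmax : v.asIdeal.IsMaximal := v.isMaximal
    have hq : ∀ r : A, ∃ s : kk, r - algebraMap kk A s ∈ v.asIdeal := by
      intro r
      have h1 := hres v.asIdeal hmax
      have : Nontrivial (A ⧸ v.asIdeal) := Ideal.Quotient.nontrivial_iff.2 hmax.ne_top
      obtain ⟨s, hs⟩ := (finrank_eq_one_iff_of_nonzero' (1 : A ⧸ v.asIdeal) one_ne_zero).1 h1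
        (Ideal.Quotient.mk _ r)
      refine ⟨s, ?_⟩
      rw [← Ideal.Quotient.eq, ← hs]
      rw [Algebra.smul_def, mul_one]
      rfl
    obtain ⟨n, d, hnd⟩ := v.exists_primeCompl_mul_eq_of_integer (K := L) f hf
    obtain ⟨sn, hsn⟩ := hq n
    obtain ⟨sd, hsd⟩ := hq d
    have hsd0 : sd ≠ 0 := by
      rintro rfl
      rw [map_zero, sub_zero] at hsd
      exact d.2 hsd
    refine ⟨sn / sd, ?_⟩
    by_cases h0 : f - algebraMap kk L (sn / sd) = 0
    · exact Or.inl (sub_eq_zero.1 h0)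
    · refine Or.inr ⟨h0, ?_⟩
      rw [oo_pos A v _ h0]
      have hd1 : v.valuation L (algebraMap A L d) = 1 := by
        rw [v.valuation_of_algebraMap]
        exact (v.intValuation_eq_one_iff_mem_primeCompl _).2 d.2
      have h2 : (n : A) - algebraMap kk A (sn / sd) * d ∈ v.asIdeal := by
        have h3 : (n : A) - algebraMap kk A (sn / sd) * d =
            (n - algebraMap kk A sn) - algebraMap kk A (sn / sd) * ((d : A) - algebraMap kk A sd) := by
          have : algebraMap kk A (sn / sd) * algebraMap kk A sd = algebraMap kk A sn := by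
            rw [← map_mul, div_mul_cancel₀ _ hsd0]
          rw [mul_sub, this]
          ring
        rw [h3]
        exact sub_mem hsn (Ideal.mul_mem_left _ _ hsd)
      have h4 : (f - algebraMap kk L (sn / sd)) * algebraMap A L d =
          algebraMap A L ((n : A) - algebraMap kk A (sn / sd) * d) := by
        rw [map_sub, map_mul, ← hnd, sub_mul]
        rfl
      have h5 : v.valuation L (f - algebraMap kk L (sn / sd)) =
          v.valuation L (algebraMap A L ((n : A) - algebraMap kk A (sn / sd) * d)) := by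
        rw [← h4, map_mul, hd1, mul_one]
      rw [h5, v.valuation_lt_one_iff_mem]
      exact h2

theorem exists_of_le {c : Subalgebra kk L} (hc : c ∈ pl kk L) (hA : A ≤ c) :
    ∃ v : HeightOneSpectrum A, c = rr A v := by
  let C : ValuationSubring L := ValuationSubring.ofSubring c.toSubring (fun x => hc.2 x)
  have hC : ∀ x : L, x ∈ C ↔ x ∈ c := fun x => Iff.rfl
  let j : A →+* C := (algebraMap A L).codRestrict C.toSubring (fun a => hA a.2)
  let P : Ideal A := (IsLocalRing.maximalIdeal C).comap j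
  have hPp : P.IsPrime := Ideal.comap_isPrime _ _
  have hP : ∀ a : A, a ∉ P → ((a : L))⁻¹ ∈ c := by
    intro a ha
    have h1 : IsUnit (j a) := by
      by_contra h
      exact ha ((IsLocalRing.mem_maximalIdeal _).2 h)
    obtain ⟨u, hu⟩ := h1
    have h2 : (a : L) = ((u : C) : L) := congrArg Subtype.val hu.symm
    have h3 : (a : L)⁻¹ = ((u⁻¹ : Cˣ) : C) := by
      rw [h2]
      apply inv_eq_of_mul_eq_one_right
      have := congrArg Subtype.val (u.mul_inv)
      exact this
    rw [h3]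
    exact ((u⁻¹ : Cˣ) : C).2
  have hPb : P ≠ ⊥ := by
    intro hb
    apply hc.1
    rw [eq_top_iff]
    intro x _
    obtain ⟨n, d, hd, rfl⟩ := IsFractionRing.div_surjective (A := A) x
    have hd0 : d ≠ 0 := nonZeroDivisors.ne_zero hd
    rw [div_eq_mul_inv]
    refine mul_mem (hA n.2) (hP d ?_)
    rw [hb]
    exact hd0
  let v : HeightOneSpectrum A := ⟨P, hPp, hPb⟩
  have h1 : rr A v ≤ c := by
    intro f hf
    obtain ⟨n, d, hnd⟩ := v.exists_primeCompl_mul_eq_of_integer (K := L) f hf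
    have hd := hP d d.2
    have hd0 : (algebraMap A L d) ≠ 0 := by
      intro h0
      apply d.2
      have : (d : A) = 0 := (IsFractionRing.to_map_eq_zero_iff (K := L)).1 h0
      rw [this]
      exact zero_mem _
    have : f = algebraMap A L n * (algebraMap A L d)⁻¹ := by
      rw [← hnd, mul_assoc, mul_inv_cancel₀ hd0, mul_one]
    rw [this]
    exact mul_mem (hA n.2) hd
  refine ⟨v, le_antisymm ?_ h1⟩
  intro f hf
  rw [mem_rr]
  by_contra hlt
  rw [not_le] at hlt
  apply hc.1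
  rw [eq_top_iff]
  intro x _
  have hf0 : f ≠ 0 := by
    rintro rfl
    rw [map_zero] at hlt
    exact absurd hlt (not_lt.2 zero_le_one)
  by_cases hx0 : x = 0
  · rw [hx0]; exact zero_mem _
  have hx : v.valuation L x ≠ 0 := (Valuation.ne_zero_iff _).2 hx0
  have hf' : v.valuation L f ≠ 0 := (Valuation.ne_zero_iff _).2 hf0
  have hlog : 0 < log (v.valuation L f) := by
    rw [← not_le, log_le_iff_le_exp hf', exp_zero, not_le]
    exact hlt
  have h2 : x * (f⁻¹) ^ (log (v.valuation L x)).toNat ∈ rr A v := by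
    rw [mem_rr, ← exp_zero, ← log_le_iff_le_exp]
    · rw [map_mul, map_pow, map_inv₀, log_mul hx (pow_ne_zero _ (inv_ne_zero hf')), log_pow,
        log_inv]
      simp only [nsmul_eq_mul, mul_neg]
      have : (log (v.valuation L x)) ≤ ((log (v.valuation L x)).toNat : ℤ) := Int.self_le_toNat _
      nlinarith [Int.natCast_nonneg (log (v.valuation L x)).toNat]
    · exact (Valuation.ne_zero_iff _).2 (mul_ne_zero hx0 (pow_ne_zero _ (inv_ne_zero hf0)))
  have h3 : x = x * (f⁻¹) ^ (log (v.valuation L x)).toNat * f ^ (log (v.valuation L x)).toNat := by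
    rw [mul_assoc, ← mul_pow, inv_mul_cancel₀ hf0, one_pow, mul_one]
  rw [h3]
  exact mul_mem (h1 h2) (pow_mem hf _)

theorem rr_mem_pl (v : HeightOneSpectrum A) : rr A v ∈ pl kk L := by
  constructor
  · intro h
    obtain ⟨π, hπ⟩ := v.valuation_exists_uniformizer L
    have : π⁻¹ ∈ rr A v := by rw [h]; trivial
    rw [mem_rr, map_inv₀, hπ, ← exp_neg, ← exp_zero, exp_le_exp] at this
    norm_num at this
  · intro r
    rw [mem_rr, mem_rr, map_inv₀]
    by_cases h : v.valuation L r ≤ 1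
    · exact Or.inl h
    · exact Or.inr (inv_le_one_of_one_le₀ (not_le.1 h).le)

theorem le_rr (v : HeightOneSpectrum A) : A ≤ rr A v :=
  fun a ha => v.valuation_le_one (K := L) ⟨a, ha⟩

theorem rr_injective : Function.Injective (rr A) := by
  intro v w h
  rw [HeightOneSpectrum.ext_iff]
  ext a
  rw [← v.valuation_lt_one_iff_mem (K := L), ← w.valuation_lt_one_iff_mem (K := L)]
  have key : ∀ u : HeightOneSpectrum A, u.valuation L (algebraMap A L a) < 1 ↔
      algebraMap A L a = 0 ∨ (algebraMap A L a)⁻¹ ∉ rr A u := by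
    intro u
    by_cases h0 : algebraMap A L a = 0
    · simp [h0]
    · simp only [h0, false_or]
      rw [mem_rr, map_inv₀, not_le, one_lt_inv₀]
      exact zero_lt_iff.2 ((Valuation.ne_zero_iff _).2 h0)
  rw [key v, key w, h]

theorem finite_rr (f : L) (hf : f ≠ 0) : {v : HeightOneSpectrum A | oo A v f ≠ 0}.Finite := by
  refine ((HeightOneSpectrum.Support.finite A f).union
    (HeightOneSpectrum.Support.finite A f⁻¹)).subset ?_
  intro v hv
  have h : v.valuation L f ≠ 0 := (Valuation.ne_zero_iff _).2 hf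
  by_contra hn
  rw [Set.mem_union, not_or] at hn
  obtain ⟨h1, h2⟩ := hn
  rw [HeightOneSpectrum.Support, Set.mem_ofPred_eq, not_lt] at h1 h2
  rw [map_inv₀] at h2
  apply hv
  have h3 : v.valuation L f = 1 := by
    refine le_antisymm h1 ?_
    exact (inv_le_one₀ (zero_lt_iff.2 h)).1 h2
  rw [oo, h3, log_one, neg_zero]

omit [IsFractionRing A L] in
theorem exists_unit_rr (v : HeightOneSpectrum A) (S : Set (HeightOneSpectrum A)) (hS : S.Finite)
    (hv : v ∉ S) (N : ℕ) : ∃ r : A, r ∉ v.asIdeal ∧ ∀ w ∈ S, r ∈ w.asIdeal ^ N := by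
  classical
  have h1 : ¬ (∏ w ∈ hS.toFinset, w.asIdeal ^ N) ≤ v.asIdeal := by
    intro h
    obtain ⟨w, hw, h2⟩ := (Ideal.IsPrime.prod_le v.isPrime).1 h
    have h3 : w.asIdeal ≤ v.asIdeal := Ideal.IsPrime.le_of_pow_le h2
    have h4 : w.asIdeal = v.asIdeal := w.isMaximal.eq_of_le v.isPrime.ne_top h3
    apply hv
    have : v = w := HeightOneSpectrum.ext h4.symm
    rw [this]
    exact hS.mem_toFinset.1 hw
  obtain ⟨r, hr, hrv⟩ := Set.not_subset.1 h1
  refine ⟨r, hrv, fun w hw => ?_⟩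
  exact (Ideal.prod_le_inf.trans (Finset.inf_le (hS.mem_toFinset.2 hw))) hr

end Abs

section Val

variable {kk L : Type} [Field kk] [IsAlgClosed kk] [CharZero kk] [Field L] [Algebra kk L]

/-- The valuation ring `c`. -/
def CC {c : Subalgebra kk L} (hc : c ∈ pl kk L) : ValuationSubring L :=
  ValuationSubring.ofSubring c.toSubring (fun x => hc.2 x)

theorem mem_CC {c : Subalgebra kk L} (hc : c ∈ pl kk L) (x : L) : x ∈ CC hc ↔ x ∈ c := Iff.rfl

theorem mem_of_integral {c : Subalgebra kk L} (hc : c ∈ pl kk L) (B : Subalgebra kk L) (hB : B ≤ c)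
    {f : L} (hf : IsIntegral B f) : f ∈ c := by
  let φ : B →+* CC hc := (algebraMap B L).codRestrict (CC hc).toSubring (fun a => hB a.2)
  obtain ⟨p, hp, h0⟩ := hf
  have h1 : IsIntegral (CC hc) f := ⟨p.map φ, hp.map φ, by
    rw [eval₂_map]
    exact h0⟩
  obtain ⟨y, hy⟩ := IsIntegrallyClosed.isIntegral_iff.1 h1
  rw [← hy]
  exact y.2

theorem unit_of {c : Subalgebra kk L} (hc : c ∈ pl kk L) {s : L} (hs : s ∈ c) (hs' : s⁻¹ ∉ c)
    (q : kk[X]) (hq : q.coeff 0 ≠ 0) : (aeval s q)⁻¹ ∈ c := by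
  have hmem : ∀ p : kk[X], aeval s p ∈ c := fun p => by
    have h1 : Algebra.adjoin kk {s} ≤ c := Algebra.adjoin_le (Set.singleton_subset_iff.2 hs)
    exact h1 (aeval_mem_adjoin_singleton kk s)
  have hv1 : (CC hc).valuation s < 1 := by
    rw [← ValuationSubring.mem_nonunits_iff, ValuationSubring.mem_nonunits_iff_or]
    exact Or.inr hs'
  have h2 : aeval s q = s * aeval s q.divX + algebraMap kk L (q.coeff 0) := by
    conv_lhs => rw [← X_mul_divX_add q]
    rw [map_add, map_mul, aeval_X, aeval_C]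
  have h3 : (CC hc).valuation (s * aeval s q.divX) < 1 := by
    rw [map_mul]
    exact mul_lt_one_of_lt_of_le hv1 ((ValuationSubring.valuation_le_one_iff _ _).2 (hmem _))
  have h4 : (CC hc).valuation (algebraMap kk L (q.coeff 0)) = 1 := by
    refine le_antisymm ((ValuationSubring.valuation_le_one_iff _ _).2 (c.algebraMap_mem _)) ?_
    have h5 : (CC hc).valuation (algebraMap kk L (q.coeff 0)⁻¹) ≤ 1 :=
      (ValuationSubring.valuation_le_one_iff _ _).2 (c.algebraMap_mem _)
    have hne : algebraMap kk L (q.coeff 0) ≠ 0 := by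
      rw [Ne, FaithfulSMul.algebraMap_eq_zero_iff]
      exact hq
    rw [map_inv₀, map_inv₀] at h5
    exact (inv_le_one₀ (zero_lt_iff.2 ((Valuation.ne_zero_iff _).2 hne))).1 h5
  have h6 : (CC hc).valuation (aeval s q) = 1 := by
    rw [h2, Valuation.map_add_eq_of_lt_right _ (by rw [h4]; exact h3), h4]
  rw [← mem_CC hc, ← ValuationSubring.valuation_le_one_iff, map_inv₀, h6, inv_one]

end Val

section Curve

variable {kk L : Type} [Field kk] [IsAlgClosed kk] [CharZero kk] [Field L] [Algebra kk L] (t : L)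

theorem R0_le {c : Subalgebra kk L} (hc : c ∈ pl kk L) (ht : t ∈ c) : R0 kk t ≤ c := by
  intro f hf
  exact mem_of_integral hc (Algebra.adjoin kk {t})
    (Algebra.adjoin_le (Set.singleton_subset_iff.2 ht)) hf

theorem Oinf_le {c : Subalgebra kk L} (hc : c ∈ pl kk L) (htr : Transcendental kk t) (ht : t ∉ c) :
    Oinf kk t ≤ c := by
  rintro a ⟨f, g, hg, hd, h⟩
  have ht0 : t ≠ 0 := by
    rintro rfl
    exact ht (zero_mem _)
  have hs : t⁻¹ ∈ c := (hc.2 t).resolve_left ht
  have hs' : (t⁻¹)⁻¹ ∉ c := by rwa [inv_inv]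
  have hmem : ∀ p : kk[X], aeval t⁻¹ p ∈ c := fun p => by
    have h1 : Algebra.adjoin kk {t⁻¹} ≤ c := Algebra.adjoin_le (Set.singleton_subset_iff.2 hs)
    exact h1 (aeval_mem_adjoin_singleton kk _)
  have key : ∀ p : kk[X], aeval t p = aeval t⁻¹ p.reverse * t ^ p.natDegree := by
    intro p
    let _ : Invertible t := invertibleOfNonzero ht0
    have := eval₂_reverse_mul_pow (algebraMap kk L) t p
    rw [invOf_eq_inv] at this
    exact this.symm
  have hgt : aeval t g ≠ 0 := fun h0 => hg (by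
    by_contra hne
    exact htr ⟨g, hne, h0⟩)
  have hgs : aeval t⁻¹ g.reverse ≠ 0 := by
    intro h0
    apply hgt
    rw [key, h0, zero_mul]
  have h2 : (aeval t⁻¹ g.reverse)⁻¹ ∈ c := by
    apply unit_of hc hs hs'
    rw [coeff_zero_reverse]
    exact leadingCoeff_ne_zero.2 hg
  have h3 : a = aeval t⁻¹ f.reverse * (t⁻¹) ^ (g.natDegree - f.natDegree) *
      (aeval t⁻¹ g.reverse)⁻¹ := by
    rw [eq_mul_inv_iff_mul_eq₀ hgs]
    have h4 : a * (aeval t⁻¹ g.reverse * t ^ g.natDegree) =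
        aeval t⁻¹ f.reverse * t ^ f.natDegree := by
      rw [← key, ← key, h]
    have h5 : t ^ g.natDegree = t ^ (g.natDegree - f.natDegree) * t ^ f.natDegree := by
      rw [← pow_add, Nat.sub_add_cancel hd]
    rw [h5, ← mul_assoc, ← mul_assoc] at h4
    have h6 := mul_right_cancel₀ (pow_ne_zero _ ht0) h4
    rw [← h6, mul_assoc _ (t ^ _), ← mul_pow, mul_inv_cancel₀ ht0, one_pow, mul_one]
  rw [h3]
  exact mul_mem (mul_mem (hmem _) (pow_mem hs _)) h2

theorem R1_le {c : Subalgebra kk L} (hc : c ∈ pl kk L) (htr : Transcendental kk t) (ht : t ∉ c) :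
    R1 kk t ≤ c := by
  intro f hf
  exact mem_of_integral hc (Oinf kk t) (Oinf_le t hc htr ht) hf

variable [IsCurve kk t]

theorem t_ne (s : kk) : t ≠ algebraMap kk L s := by
  rintro h
  exact (IsCurve.trans (k := kk) (x := t)) (h ▸ isAlgebraic_algebraMap s)

theorem fin0 (I : Ideal (R0 kk t)) (hI : I.IsMaximal) : finrank kk (R0 kk t ⧸ I) = 1 := by
  have : IsSimpleModule (R0 kk t) (R0 kk t ⧸ I) := isSimpleModule_iff_isCoatom.2 hI.out
  exact R0_simple kk t _

theorem fin1 (I : Ideal (R1 kk t)) (hI : I.IsMaximal) : finrank kk (R1 kk t ⧸ I) = 1 := by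
  have : IsSimpleModule (R1 kk t) (R1 kk t ⧸ I) := isSimpleModule_iff_isCoatom.2 hI.out
  exact R1_simple kk t _

theorem inv_sub_mem (s : kk) : (t - algebraMap kk L s)⁻¹ ∈ R1 kk t := by
  have h1 : (t - algebraMap kk L s)⁻¹ ∈ Oinf kk t := by
    refine ⟨1, X - C s, X_sub_C_ne_zero s, by simp, ?_⟩
    rw [map_sub, aeval_X, aeval_C, map_one]
    exact inv_mul_cancel₀ (sub_ne_zero.2 (t_ne t s))
  exact isIntegral_algebraMap (R := Oinf kk t) (x := (⟨_, h1⟩ : Oinf kk t))

theorem not_mem_of_R1_le {c : Subalgebra kk L} (hc : c ∈ pl kk L) (h1 : R1 kk t ≤ c) : t ∉ c := by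
  intro ht
  have hded := R0_dedekind kk t
  have hfr := R0_fraction kk t
  obtain ⟨v, hv⟩ := exists_of_le (R0 kk t) hc (R0_le t hc ht)
  have ho := isOrd_rr (R0 kk t) (fin0 t) v
  obtain ⟨s, hs | ⟨hs0, hs1⟩⟩ := ho.res t (hv ▸ ht)
  · exact t_ne t s hs
  · have h2 := h1 (inv_sub_mem t s)
    rw [hv, ho.mem _ (inv_ne_zero hs0)] at h2
    have h3 := ho.mul _ _ hs0 (inv_ne_zero hs0)
    rw [mul_inv_cancel₀ hs0] at h3
    have h4 := ho.mul 1 1 one_ne_zero one_ne_zero
    rw [one_mul] at h4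
    omega

end Curve

end A1

open A1

variable {kk L : Type} [Field kk] [IsAlgClosed kk] [CharZero kk] [Field L] [Algebra kk L]

theorem isOrd_ordv (t : L) [IsCurve kk t] {c : Subalgebra kk L} (hc : c ∈ pl kk L) :
    IsOrd c (ordv c) := by
  by_cases ht : t ∈ c
  · have hded := R0_dedekind kk t
    have hfr := R0_fraction kk t
    obtain ⟨v, rfl⟩ := exists_of_le (R0 kk t) hc (R0_le t hc ht)
    exact (isOrd_rr (R0 kk t) (fin0 t) v).ordv_of
  · have hded := R1_dedekind kk t
    have hfr := R1_fraction kk t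
    obtain ⟨v, rfl⟩ := exists_of_le (R1 kk t) hc (R1_le t hc (IsCurve.trans (k := kk)) ht)
    exact (isOrd_rr (R1 kk t) (fin1 t) v).ordv_of

namespace A1

theorem ordv_rr (A : Subalgebra kk L) [IsDedekindDomain A] [IsFractionRing A L]
    (hres : ∀ I : Ideal A, I.IsMaximal → finrank kk (A ⧸ I) = 1) (v : HeightOneSpectrum A) :
    ordv (rr A v) = oo A v :=
  ((isOrd_rr A hres v).ordv_of).unique (isOrd_rr A hres v)

end A1

theorem ordv_finite (t : L) [IsCurve kk t] {f : L} (hf : f ≠ 0) :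
    {c : pl kk L | ordv c.1 f ≠ 0}.Finite := by
  have hded := R0_dedekind kk t
  have hfr := R0_fraction kk t
  have hded' := R1_dedekind kk t
  have hfr' := R1_fraction kk t
  refine (((finite_rr (R0 kk t) f hf).image (fun v => (⟨rr _ v, rr_mem_pl _ v⟩ : pl kk L))).union
    ((finite_rr (R1 kk t) f hf).image (fun v => (⟨rr _ v, rr_mem_pl _ v⟩ : pl kk L)))).subset ?_
  rintro ⟨c, hc⟩ hcf
  by_cases ht : t ∈ c
  · obtain ⟨v, rfl⟩ := exists_of_le (R0 kk t) hc (R0_le t hc ht)
    refine Or.inl ⟨v, ?_, rfl⟩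
    rw [Set.mem_ofPred_eq, ← ordv_rr (R0 kk t) (fin0 t)]
    exact hcf
  · obtain ⟨v, rfl⟩ := exists_of_le (R1 kk t) hc (R1_le t hc (IsCurve.trans (k := kk)) ht)
    refine Or.inr ⟨v, ?_, rfl⟩
    rw [Set.mem_ofPred_eq, ← ordv_rr (R1 kk t) (fin1 t)]
    exact hcf

/-- `R0` is the ring of functions regular at all points where `t` is finite, `R1` the ring of
functions regular at the poles of `t` -/
theorem mem_R0_iff_pl (t : L) [IsCurve kk t] (f : L) :
    f ∈ R0 kk t ↔ ∀ c ∈ pl kk L, t ∈ c → f ∈ c := by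
  have hded := R0_dedekind kk t
  have hfr := R0_fraction kk t
  refine ⟨fun hf c hc ht => R0_le t hc ht hf, fun h => ?_⟩
  obtain ⟨y, hy⟩ := HeightOneSpectrum.mem_integers_of_valuation_le_one (R := R0 kk t) L f
    (fun v => h (rr _ v) (rr_mem_pl _ v) (le_rr _ v (Rings0.x_mem kk t)))
  rw [← hy]
  exact y.2

theorem mem_R1_iff_pl (t : L) [IsCurve kk t] (f : L) :
    f ∈ R1 kk t ↔ ∀ c ∈ pl kk L, t ∉ c → f ∈ c := by
  have hded := R1_dedekind kk t
  have hfr := R1_fraction kk t
  refine ⟨fun hf c hc ht => R1_le t hc (IsCurve.trans (k := kk)) ht hf, fun h => ?_⟩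
  obtain ⟨y, hy⟩ := HeightOneSpectrum.mem_integers_of_valuation_le_one (R := R1 kk t) L f
    (fun v => h (rr _ v) (rr_mem_pl _ v) (not_mem_of_R1_le t (rr_mem_pl _ v) (le_rr _ v)))
  rw [← hy]
  exact y.2

theorem const_of_mem (t : L) [IsCurve kk t] (f : L) (h : ∀ c ∈ pl kk L, f ∈ c) :
    ∃ s : kk, f = algebraMap kk L s :=
  R0_inf_R1 kk t f ((mem_R0_iff_pl t f).2 fun c hc _ => h c hc)
    ((mem_R1_iff_pl t f).2 fun c hc _ => h c hc)

theorem pl_infinite (t : L) [IsCurve kk t] : (pl kk L).Infinite := by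
  have hded := R0_dedekind kk t
  have hfr := R0_fraction kk t
  have h1 : ∀ s : kk, ∃ c ∈ pl kk L, t ∈ c ∧ (t - algebraMap kk L s)⁻¹ ∉ c := by
    intro s
    by_contra hcon
    have h2 : ∀ c ∈ pl kk L, t ∈ c → (t - algebraMap kk L s)⁻¹ ∈ c := by
      intro c hc ht
      by_contra h3
      exact hcon ⟨c, hc, ht, h3⟩
    have h3 := (mem_R0_iff_pl t _).2 h2
    obtain ⟨e, he⟩ := R0_inf_R1 kk t _ h3 (inv_sub_mem t s)
    apply t_ne t (s + e⁻¹)
    rw [map_add, map_inv₀, ← he, inv_inv]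
    ring
  choose c hc ht hcs using h1
  have hinj : Function.Injective c := by
    intro s s' hss
    by_contra hne
    have ho := isOrd_ordv t (hc s)
    have hs0 : ∀ s : kk, t - algebraMap kk L s ≠ 0 := fun s => sub_ne_zero.2 (t_ne t s)
    have key : ∀ s' : kk, c s = c s' → MemP (c s) 1 (t - algebraMap kk L s') := by
      intro s' h
      refine Or.inr ?_
      have h4 := hcs s'
      rw [← h, ho.mem _ (inv_ne_zero (hs0 s')), ho.ordv_inv] at h4
      omega
    have h5 : MemP (c s) 1 ((t - algebraMap kk L s) + -(t - algebraMap kk L s')) := by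
      refine ho.memP_add (key s rfl) ?_
      rcases key s' hss with h | h
      · exact Or.inl (by rw [h, neg_zero])
      · exact Or.inr (by rw [ho.ordv_neg]; exact h)
    have h6 : (t - algebraMap kk L s) + -(t - algebraMap kk L s') = algebraMap kk L (s' - s) := by
      rw [map_sub]; ring
    rw [h6] at h5
    rcases h5 with h | h
    · rw [FaithfulSMul.algebraMap_eq_zero_iff, sub_eq_zero] at h
      exact hne h.symm
    · rw [ho.ordv_const] at h
      norm_num at h
  exact Set.infinite_of_injective_forall_mem hinj hc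

namespace A1

theorem exists_unit (A : Subalgebra kk L) [IsDedekindDomain A] [IsFractionRing A L]
    (hres : ∀ I : Ideal A, I.IsMaximal → finrank kk (A ⧸ I) = 1)
    (c : pl kk L) (hc : A ≤ c.1) (S : Set (pl kk L))
    (hS : S.Finite) (hcS : c ∉ S) (N : ℕ) :
    ∃ r ∈ A, r ≠ 0 ∧ r⁻¹ ∈ c.1 ∧ ∀ c' ∈ S, A ≤ c'.1 → MemP c'.1 N r := by
  obtain ⟨c, hcp⟩ := c
  obtain ⟨v, rfl⟩ := exists_of_le A hcp hc
  let F : HeightOneSpectrum A → pl kk L := fun v => ⟨rr A v, rr_mem_pl A v⟩
  have hF : Function.Injective F := fun a b h => rr_injective A (congrArg Subtype.val h)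
  obtain ⟨r, hr, hr'⟩ := exists_unit_rr A v (F ⁻¹' S) (hS.preimage hF.injOn) hcS N
  have hr0 : (r : L) ≠ 0 := by
    intro h
    apply hr
    have : r = 0 := Subtype.ext h
    rw [this]
    exact zero_mem _
  refine ⟨r, r.2, hr0, ?_, ?_⟩
  · rw [mem_rr, map_inv₀]
    have : v.valuation L (r : L) = 1 := (v.valuation_of_algebraMap (K := L) r).trans
      ((v.intValuation_eq_one_iff_mem_primeCompl r).2 hr)
    rw [this, inv_one]
  · rintro ⟨c', hc'⟩ hcS' hA
    obtain ⟨w, rfl⟩ := exists_of_le A hc' hA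
    refine Or.inr ?_
    have h1 := (w.intValuation_le_pow_iff_mem r N).2 (hr' w hcS')
    rw [ordv_rr A hres, oo]
    have h2 : w.valuation L (r : L) ≤ exp (-(N : ℤ)) :=
      (w.valuation_of_algebraMap (K := L) r).trans_le h1
    rw [← log_le_iff_le_exp ((Valuation.ne_zero_iff _).2 hr0)] at h2
    change (N : ℤ) ≤ -log (w.valuation L (r : L))
    omega

end A1

/-- approximation: a function regular where `t` is finite, a unit at `c`, divisible by high powers
at finitely many other points -/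
theorem exists_R0_unit (t : L) [IsCurve kk t] (c : pl kk L) (hc : t ∈ c.1) (S : Set (pl kk L))
    (hS : S.Finite) (hcS : c ∉ S) (N : ℕ) :
    ∃ r ∈ R0 kk t, r ≠ 0 ∧ r⁻¹ ∈ c.1 ∧ ∀ c' ∈ S, t ∈ c'.1 → MemP c'.1 N r := by
  have hded := R0_dedekind kk t
  have hfr := R0_fraction kk t
  obtain ⟨r, hr, hr0, hrc, h⟩ := A1.exists_unit (R0 kk t) (fin0 t) c (R0_le t c.2 hc) S hS hcS N
  exact ⟨r, hr, hr0, hrc, fun c' hc' ht => h c' hc' (R0_le t c'.2 ht)⟩

theorem exists_R1_unit (t : L) [IsCurve kk t] (c : pl kk L) (hc : t ∉ c.1) (S : Set (pl kk L))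
    (hS : S.Finite) (hcS : c ∉ S) (N : ℕ) :
    ∃ r ∈ R1 kk t, r ≠ 0 ∧ r⁻¹ ∈ c.1 ∧ ∀ c' ∈ S, t ∉ c'.1 → MemP c'.1 N r := by
  have hded := R1_dedekind kk t
  have hfr := R1_fraction kk t
  obtain ⟨r, hr, hr0, hrc, h⟩ := A1.exists_unit (R1 kk t) (fin1 t) c
    (R1_le t c.2 (IsCurve.trans (k := kk)) hc) S hS hcS N
  exact ⟨r, hr, hr0, hrc, fun c' hc' ht => h c' hc' (R1_le t c'.2 (IsCurve.trans (k := kk)) ht)⟩


end P2

section P3

variable {kk L : Type} [Field kk] [IsAlgClosed kk] [CharZero kk] [Field L] [Algebra kk L]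
variable {n : ℕ}

theorem exists_isPair (t : L) [IsCurve kk t] (h : pl kk L → Matrix (Fin n) (Fin n) L) :
    ∃ E : Pair kk t (Fin n → L), IsPair h E := by
  refine ⟨⟨{ carrier := {v | ∀ c : pl kk L, t ∈ c.1 → ∀ k, (((h c)⁻¹).mulVec v) k ∈ c.1}
             add_mem' := ?_
             zero_mem' := ?_
             smul_mem' := ?_ },
          { carrier := {v | ∀ c : pl kk L, t ∉ c.1 → ∀ k, (((h c)⁻¹).mulVec v) k ∈ c.1}
            add_mem' := ?_
            zero_mem' := ?_
            smul_mem' := ?_ }⟩, fun v => Iff.rfl, fun v => Iff.rfl⟩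
  · intro v w hv hw c hc k
    rw [Matrix.mulVec_add]
    exact add_mem (hv c hc k) (hw c hc k)
  · intro c _ k
    rw [Matrix.mulVec_zero]
    exact zero_mem _
  · intro r v hv c hc k
    have h1 : r • v = (r : L) • v := rfl
    rw [h1, Matrix.mulVec_smul]
    exact mul_mem (A1.R0_le t c.2 hc r.2) (hv c hc k)
  · intro v w hv hw c hc k
    rw [Matrix.mulVec_add]
    exact add_mem (hv c hc k) (hw c hc k)
  · intro c _ k
    rw [Matrix.mulVec_zero]
    exact zero_mem _
  · intro r v hv c hc k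
    have h1 : r • v = (r : L) • v := rfl
    rw [h1, Matrix.mulVec_smul]
    exact mul_mem (A1.R1_le t c.2 (IsCurve.trans (k := kk)) hc r.2) (hv c hc k)

namespace A3

theorem mem_of_mulVec {c : Subalgebra kk L} {M : Matrix (Fin n) (Fin n) L} {v : Fin n → L} {r : L}
    (hM : ∀ k l, r * M k l ∈ c) (hv : ∀ k, v k ∈ c) (k : Fin n) : r * (M.mulVec v) k ∈ c := by
  rw [Matrix.mulVec, dotProduct, Finset.mul_sum]
  refine sum_mem fun l _ => ?_
  rw [← mul_assoc]
  exact mul_mem (hM k l) (hv l)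

/-- a common denominator for the frames -/
theorem bound (A : Subalgebra kk L) [IsFractionRing A L] {h : pl kk L → Matrix (Fin n) (Fin n) L}
    (hF : IsFr h) : ∃ r ∈ A, r ≠ 0 ∧ ∀ c : pl kk L, A ≤ c.1 → ∀ k l, r * h c k l ∈ c.1 ∧
      r * (h c)⁻¹ k l ∈ c.1 := by
  classical
  let T : Finset L := hF.fin.toFinset.biUnion fun c =>
    (Finset.univ : Finset (Fin n × Fin n)).image (fun p => h c p.1 p.2) ∪
    (Finset.univ : Finset (Fin n × Fin n)).image (fun p => (h c)⁻¹ p.1 p.2)
  obtain ⟨b, hb⟩ := IsLocalization.exist_integer_multiples_of_finset (nonZeroDivisors A) T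
  have hb0 : ((b : A) : L) ≠ 0 := by
    intro h0
    exact nonZeroDivisors.ne_zero b.2 (Subtype.ext h0)
  have hT : ∀ x ∈ T, ((b : A) : L) * x ∈ A := by
    intro x hx
    obtain ⟨y, hy⟩ := hb x hx
    have : ((b : A) : L) * x = (y : L) := by
      rw [Algebra.smul_def] at hy
      exact hy.symm
    rw [this]
    exact y.2
  refine ⟨(b : A), (b : A).2, hb0, fun c hc k l => ?_⟩
  by_cases hcF : (∀ k l, h c k l ∈ c.1) ∧ ∀ k l, (h c)⁻¹ k l ∈ c.1
  · exact ⟨mul_mem (hc (b : A).2) (hcF.1 k l), mul_mem (hc (b : A).2) (hcF.2 k l)⟩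
  · constructor
    · refine hc (hT _ ?_)
      exact Finset.mem_biUnion.2 ⟨c, hF.fin.mem_toFinset.2 hcF, Finset.mem_union_left _
        (Finset.mem_image.2 ⟨(k, l), Finset.mem_univ _, rfl⟩)⟩
    · refine hc (hT _ ?_)
      exact Finset.mem_biUnion.2 ⟨c, hF.fin.mem_toFinset.2 hcF, Finset.mem_union_right _
        (Finset.mem_image.2 ⟨(k, l), Finset.mem_univ _, rfl⟩)⟩

omit [Algebra kk L] in
theorem mulVec_inv {M : Matrix (Fin n) (Fin n) L} (hM : M.det ≠ 0) (v : Fin n → L) :
    M.mulVec (M⁻¹.mulVec v) = v := by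
  rw [Matrix.mulVec_mulVec, Matrix.mul_nonsing_inv _ (isUnit_iff_ne_zero.2 hM), Matrix.one_mulVec]

end A3

theorem isBundle_of_isPair {t : L} [IsCurve kk t] {h : pl kk L → Matrix (Fin n) (Fin n) L}
    {E : Pair kk t (Fin n → L)} (hF : IsFr h) (hE : IsPair h E) : E.IsBundle := by
  classical
  have hded := R0_dedekind kk t
  have hfr := R0_fraction kk t
  have hded' := R1_dedekind kk t
  have hfr' := R1_fraction kk t
  obtain ⟨r, hr, hr0, hrc⟩ := A3.bound (R0 kk t) hF
  obtain ⟨s, hs, hs0, hsc⟩ := A3.bound (R1 kk t) hF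
  let er : L → L → ((Fin n → L) ≃ₗ[L] (Fin n → L)) := fun a _ =>
    if ha : a ≠ 0 then LinearEquiv.smulOfNeZero L (Fin n → L) a ha else LinearEquiv.refl L _
  have her : ∀ a : L, a ≠ 0 → ∀ v, (er a a).symm v = a⁻¹ • v := by
    intro a ha v
    simp only [er, dif_pos ha]
    rfl
  have hB : ∀ a : L, ((Pair.triv kk t (Fin n)).map (er a a).toLinearMap).IsBundle := fun a =>
    IsoAux.bundle_map _ _ (Pair.isBundle_triv (Fin n))
  have hB2 : ∀ a b : L, (⟨((Pair.triv kk t (Fin n)).map (er a a).toLinearMap).L0,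
      ((Pair.triv kk t (Fin n)).map (er b b).toLinearMap).L1⟩ : Pair kk t (Fin n → L)).IsBundle :=
    fun a b => ⟨(hB a).fg0, (hB b).fg1, (hB a).span0, (hB b).span1⟩
  refine Pair.isBundle_of_between _ _ E (hB2 r⁻¹ s⁻¹) (hB2 r s) ⟨?_, ?_⟩ ⟨?_, ?_⟩
  · intro v hv
    rw [IsoAux.mem_map0, her r hr0, Pair.MultAux.mem_triv_L0] at hv
    rw [hE.1]
    intro c hc k
    have h1 : v = r • (r⁻¹ • v) := by rw [smul_smul, mul_inv_cancel₀ hr0, one_smul]
    rw [h1, Matrix.mulVec_smul]
    exact A3.mem_of_mulVec (fun k l => (hrc c (A1.R0_le t c.2 hc) k l).2)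
      (fun k => A1.R0_le t c.2 hc (hv k)) k
  · intro v hv
    rw [IsoAux.mem_map1, her s hs0, Pair.MultAux.mem_triv_L1] at hv
    rw [hE.2]
    intro c hc k
    have h1 : v = s • (s⁻¹ • v) := by rw [smul_smul, mul_inv_cancel₀ hs0, one_smul]
    have hle := A1.R1_le t c.2 (IsCurve.trans (k := kk)) hc
    rw [h1, Matrix.mulVec_smul]
    exact A3.mem_of_mulVec (fun k l => (hsc c hle k l).2) (fun k => hle (hv k)) k
  · intro v hv
    rw [hE.1] at hv
    rw [IsoAux.mem_map0, her _ (inv_ne_zero hr0), Pair.MultAux.mem_triv_L0, inv_inv]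
    intro k
    rw [mem_R0_iff_pl]
    intro c hcp hc
    have h1 := A3.mem_of_mulVec (fun k l => (hrc ⟨c, hcp⟩ (A1.R0_le t hcp hc) k l).1)
      (hv ⟨c, hcp⟩ hc) k
    rw [A3.mulVec_inv (hF.det _)] at h1
    exact h1
  · intro v hv
    rw [hE.2] at hv
    rw [IsoAux.mem_map1, her _ (inv_ne_zero hs0), Pair.MultAux.mem_triv_L1, inv_inv]
    intro k
    rw [mem_R1_iff_pl]
    intro c hcp hc
    have h1 := A3.mem_of_mulVec (fun k l => (hsc ⟨c, hcp⟩
      (A1.R1_le t hcp (IsCurve.trans (k := kk)) hc) k l).1) (hv ⟨c, hcp⟩ hc) k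
    rw [A3.mulVec_inv (hF.det _)] at h1
    exact h1

namespace A3

theorem bad_finite (t : L) [IsCurve kk t] {h : pl kk L → Matrix (Fin n) (Fin n) L}
    (hF : IsFr h) (v : Fin n → L) :
    {c : pl kk L | ¬ ∀ k, (((h c)⁻¹).mulVec v) k ∈ c.1}.Finite := by
  have h1 : ∀ k, {c : pl kk L | v k ∉ c.1}.Finite := by
    intro k
    by_cases h0 : v k = 0
    · refine Set.finite_empty.subset ?_
      intro c hc
      exact hc (by rw [h0]; exact zero_mem _)
    · refine (ordv_finite t h0).subset ?_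
      intro c hc hord
      apply hc
      rw [(isOrd_ordv t c.2).mem _ h0, hord]
  refine (hF.fin.union (Set.finite_iUnion h1)).subset ?_
  intro c hc
  by_contra hn
  rw [Set.mem_union, not_or] at hn
  obtain ⟨h2, h3⟩ := hn
  apply hc
  intro k
  have h4 : ∀ k, v k ∈ c.1 := by
    intro k
    by_contra h5
    exact h3 (Set.mem_iUnion.2 ⟨k, h5⟩)
  rw [Set.mem_ofPred_eq, not_not] at h2
  have := mem_of_mulVec (r := 1) (fun k l => by rw [one_mul]; exact h2.2 k l) h4 k
  rwa [one_mul] at this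

theorem exists_N (S : Set (pl kk L)) (hS : S.Finite) (f : pl kk L → Fin n → ℤ) :
    ∃ N : ℕ, ∀ c ∈ S, ∀ k, 0 ≤ (N : ℤ) + f c k := by
  classical
  refine ⟨∑ c ∈ hS.toFinset, ∑ k, (f c k).natAbs, fun c hc k => ?_⟩
  have h1 : (f c k).natAbs ≤ ∑ k, (f c k).natAbs :=
    Finset.single_le_sum (f := fun k => (f c k).natAbs) (fun _ _ => Nat.zero_le _)
      (Finset.mem_univ k)
  have h2 : ∑ k, (f c k).natAbs ≤ ∑ c ∈ hS.toFinset, ∑ k, (f c k).natAbs :=
    Finset.single_le_sum (f := fun c => ∑ k, (f c k).natAbs) (fun _ _ => Nat.zero_le _)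
      (hS.mem_toFinset.2 hc)
  have h3 := h1.trans h2
  have h4 : ((f c k).natAbs : ℤ) ≤ ((∑ c ∈ hS.toFinset, ∑ k, (f c k).natAbs : ℕ) : ℤ) := by
    exact_mod_cast h3
  omega

theorem mem_of_memP {c : Subalgebra kk L} (ho : IsOrd c (ordv c)) {N : ℕ} {r f : L}
    (hr0 : r ≠ 0) (hr : MemP c N r) (hf : 0 ≤ (N : ℤ) + ordv c f) : r * f ∈ c := by
  by_cases hf0 : f = 0
  · rw [hf0, mul_zero]; exact zero_mem _
  · rw [ho.mem _ (mul_ne_zero hr0 hf0), ho.mul _ _ hr0 hf0]
    rcases hr with hr | hr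
    · exact absurd hr hr0
    · omega

end A3

/-- the lattice at `c` is generated by the sections over an affine open set containing `c` -/
theorem lat_of_isPair {t : L} [IsCurve kk t] {h : pl kk L → Matrix (Fin n) (Fin n) L}
    {E : Pair kk t (Fin n → L)} (hF : IsFr h) (hE : IsPair h E) (c : pl kk L) (v : Fin n → L) :
    (∀ k, (((h c)⁻¹).mulVec v) k ∈ c.1) ↔
      ((t ∈ c.1 → ∃ r ∈ R0 kk t, r ≠ 0 ∧ r⁻¹ ∈ c.1 ∧ r • v ∈ E.L0) ∧
       (t ∉ c.1 → ∃ r ∈ R1 kk t, r ≠ 0 ∧ r⁻¹ ∈ c.1 ∧ r • v ∈ E.L1)) := by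
  constructor
  · intro hv
    have hS := A3.bad_finite t hF v
    have hcS : c ∉ {c : pl kk L | ¬ ∀ k, (((h c)⁻¹).mulVec v) k ∈ c.1} := by
      intro h1
      exact h1 hv
    obtain ⟨N, hN⟩ := A3.exists_N _ hS (fun c k => ordv c.1 ((((h c)⁻¹).mulVec v) k))
    constructor
    · intro ht
      obtain ⟨r, hr, hr0, hrc, h1⟩ := exists_R0_unit t c ht _ hS hcS N
      refine ⟨r, hr, hr0, hrc, ?_⟩
      rw [hE.1]
      intro c' ht' k
      rw [Matrix.mulVec_smul]
      by_cases hc' : ∀ k, (((h c')⁻¹).mulVec v) k ∈ c'.1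
      · exact mul_mem (A1.R0_le t c'.2 ht' hr) (hc' k)
      · exact A3.mem_of_memP (isOrd_ordv t c'.2) hr0 (h1 c' hc' ht') (hN c' hc' k)
    · intro ht
      obtain ⟨r, hr, hr0, hrc, h1⟩ := exists_R1_unit t c ht _ hS hcS N
      refine ⟨r, hr, hr0, hrc, ?_⟩
      rw [hE.2]
      intro c' ht' k
      rw [Matrix.mulVec_smul]
      by_cases hc' : ∀ k, (((h c')⁻¹).mulVec v) k ∈ c'.1
      · exact mul_mem (A1.R1_le t c'.2 (IsCurve.trans (k := kk)) ht' hr) (hc' k)
      · exact A3.mem_of_memP (isOrd_ordv t c'.2) hr0 (h1 c' hc' ht') (hN c' hc' k)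
  · rintro ⟨h0, h1⟩ k
    by_cases ht : t ∈ c.1
    · obtain ⟨r, -, hr0, hrc, hv⟩ := h0 ht
      rw [hE.1] at hv
      have h2 := mul_mem hrc (hv c ht k)
      rw [Matrix.mulVec_smul, Pi.smul_apply, smul_eq_mul, ← mul_assoc, inv_mul_cancel₀ hr0,
        one_mul] at h2
      exact h2
    · obtain ⟨r, -, hr0, hrc, hv⟩ := h1 ht
      rw [hE.2] at hv
      have h2 := mul_mem hrc (hv c ht k)
      rw [Matrix.mulVec_smul, Pi.smul_apply, smul_eq_mul, ← mul_assoc, inv_mul_cancel₀ hr0,
        one_mul] at h2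
      exact h2


end P3

section P4

variable {kk L : Type} [Field kk] [IsAlgClosed kk] [CharZero kk] [Field L] [Algebra kk L]
variable {n : ℕ}

namespace A4

/-! ### Elementary facts on matrices over a valuation ring -/

theorem det_mem {c : Subalgebra kk L} {M : Matrix (Fin n) (Fin n) L} (hM : ∀ k l, M k l ∈ c) :
    M.det ∈ c := by
  rw [Matrix.det_apply']
  refine sum_mem fun σ _ => mul_mem ?_ (prod_mem fun i _ => hM _ _)
  rcases Int.units_eq_one_or (Equiv.Perm.sign σ) with h | h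
  · rw [h]; simp
  · rw [h]; simp

theorem inv_mem {c : Subalgebra kk L} {M : Matrix (Fin n) (Fin n) L} (hM : ∀ k l, M k l ∈ c)
    (hd : (M.det)⁻¹ ∈ c) (k l : Fin n) : M⁻¹ k l ∈ c := by
  rw [Matrix.inv_def, Matrix.smul_apply, Ring.inverse_eq_inv', smul_eq_mul]
  refine mul_mem hd ?_
  rw [Matrix.adjugate_apply]
  refine det_mem fun i j => ?_
  by_cases hi : i = l
  · subst hi
    rw [Matrix.updateRow_self]
    by_cases hj : j = k
    · rw [hj, Pi.single_eq_same]; exact one_mem _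
    · rw [Pi.single_eq_of_ne hj]; exact zero_mem _
  · rw [Matrix.updateRow_ne hi]
    exact hM i j

/-- a singular reduction has a kernel vector -/
theorem exists_ker {c : Subalgebra kk L} (ho : IsOrd c (ordv c)) {M : Matrix (Fin n) (Fin n) L}
    (hM : ∀ k l, M k l ∈ c) (hd : MemP c 1 M.det) :
    ∃ (lam : Fin n → kk) (k0 : Fin n), lam k0 ≠ 0 ∧
      ∀ l, MemP c 1 (∑ k, algebraMap kk L (lam k) * M k l) := by
  obtain ⟨e, he⟩ := ho.exists_residHom
  let M' : Matrix (Fin n) (Fin n) c := fun k l => ⟨M k l, hM k l⟩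
  have h1 : (M'.map e).det = 0 := by
    have h2 : (M'.map e).det = e M'.det := (RingHom.map_det e.toRingHom M').symm
    rw [h2, he]
    have h3 : ((M'.det : c) : L) = M.det := (RingHom.map_det c.val.toRingHom M')
    rw [h3]
    exact (ho.resid_eq_zero (det_mem hM)).2 hd
  obtain ⟨lam, hlam, h4⟩ := Matrix.exists_vecMul_eq_zero_iff.2 h1
  obtain ⟨k0, hk0⟩ := Function.ne_iff.1 hlam
  refine ⟨lam, k0, hk0, fun l => ?_⟩
  have hmem : ∑ k, algebraMap kk L (lam k) * M k l ∈ c :=
    sum_mem fun k _ => mul_mem (c.algebraMap_mem _) (hM k l)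
  rw [← ho.resid_eq_zero hmem]
  have h5 : (∑ k, algebraMap kk L (lam k) * M k l) =
      ((∑ k, algebraMap kk c (lam k) * M' k l : c) : L) := by
    push_cast
    rfl
  rw [h5, ← he, map_sum]
  have h6 := congrFun h4 l
  rw [Matrix.vecMul, dotProduct] at h6
  simp only [map_mul, AlgHom.commutes]
  exact h6

/-! ### The elementary modification -/

/-- The matrix of the elementary modification. -/
def Q (lam : Fin n → kk) (k0 : Fin n) (π : L) : Matrix (Fin n) (Fin n) L :=
  (1 : Matrix (Fin n) (Fin n) L).updateRow k0 (fun k => π⁻¹ * algebraMap kk L (lam k))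

theorem Q_det (lam : Fin n → kk) (k0 : Fin n) (π : L) :
    (Q lam k0 π).det = π⁻¹ * algebraMap kk L (lam k0) := by
  rw [Q, ← Matrix.cramer_transpose_apply, Matrix.transpose_one, Matrix.cramer_one]
  rfl

theorem Q_mulVec_ne (lam : Fin n → kk) (k0 : Fin n) (π : L) (w : Fin n → L) {k : Fin n}
    (hk : k ≠ k0) : ((Q lam k0 π).mulVec w) k = w k := by
  rw [Matrix.mulVec, Q, Matrix.updateRow_ne hk]
  exact congrFun (Matrix.one_mulVec w) k

theorem Q_mulVec_self (lam : Fin n → kk) (k0 : Fin n) (π : L) (w : Fin n → L) :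
    ((Q lam k0 π).mulVec w) k0 = π⁻¹ * ∑ k, algebraMap kk L (lam k) * w k := by
  rw [Matrix.mulVec, Q, Matrix.updateRow_self, dotProduct, Finset.mul_sum]
  exact Finset.sum_congr rfl fun k _ => mul_assoc _ _ _

theorem memP_one_iff {c : Subalgebra kk L} (ho : IsOrd c (ordv c)) {π : L} (hπ : π ≠ 0)
    (hπ1 : ordv c π = 1) (f : L) : MemP c 1 f ↔ π⁻¹ * f ∈ c := by
  by_cases hf : f = 0
  · rw [hf, mul_zero]
    exact ⟨fun _ => zero_mem _, fun _ => Or.inl rfl⟩
  · rw [ho.mem _ (mul_ne_zero (inv_ne_zero hπ) hf), ho.mul _ _ (inv_ne_zero hπ) hf, ho.ordv_inv,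
      hπ1, MemP]
    constructor
    · rintro (h | h)
      · exact absurd h hf
      · omega
    · intro h
      exact Or.inr (by omega)

theorem Q_lat {c : Subalgebra kk L} (ho : IsOrd c (ordv c)) {π : L} (hπ : π ≠ 0)
    (hπ1 : ordv c π = 1) {lam : Fin n → kk} {k0 : Fin n} (hl : lam k0 ≠ 0) (w : Fin n → L) :
    (∀ k, ((Q lam k0 π).mulVec w) k ∈ c) ↔
      (∀ k, w k ∈ c) ∧ MemP c 1 (∑ k, algebraMap kk L (lam k) * w k) := by
  rw [memP_one_iff ho hπ hπ1, ← Q_mulVec_self]
  constructor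
  · intro h
    refine ⟨?_, h k0⟩
    have h1 : ∀ k, k ≠ k0 → w k ∈ c := fun k hk => by
      rw [← Q_mulVec_ne lam k0 π w hk]; exact h k
    intro k
    by_cases hk : k = k0
    · subst hk
      have hπc : π ∈ c := (ho.mem _ hπ).2 (by rw [hπ1]; norm_num)
      have h2 := mul_mem hπc (h k)
      rw [Q_mulVec_self, ← mul_assoc, mul_inv_cancel₀ hπ, one_mul,
        ← Finset.add_sum_erase _ _ (Finset.mem_univ k)] at h2
      have h3 : ∑ x ∈ Finset.univ.erase k, algebraMap kk L (lam x) * w x ∈ c :=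
        sum_mem fun x hx => mul_mem (c.algebraMap_mem _) (h1 x (Finset.ne_of_mem_erase hx))
      have h4 := sub_mem h2 h3
      rw [add_sub_cancel_right] at h4
      have h5 := mul_mem (c.algebraMap_mem (lam k)⁻¹) h4
      rw [← mul_assoc, ← map_mul, inv_mul_cancel₀ hl, map_one, one_mul] at h5
      exact h5
    · exact h1 k hk
  · rintro ⟨h1, h2⟩ k
    by_cases hk : k = k0
    · rw [hk]; exact h2
    · rw [Q_mulVec_ne lam k0 π w hk]; exact h1 k

theorem len_one {c : Subalgebra kk L} (ho : IsOrd c (ordv c)) (H : Matrix (Fin n) (Fin n) L)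
    (lam : Fin n → kk) (A0 A1 : Submodule kk (Fin n → L))
    (h1 : ∀ v ∈ A1, ∀ k, (H.mulVec v) k ∈ c)
    (h2 : ∀ v, v ∈ A0 ↔ v ∈ A1 ∧ MemP c 1 (∑ k, algebraMap kk L (lam k) * (H.mulVec v) k))
    (h3 : ∃ v ∈ A1, ¬ MemP c 1 (∑ k, algebraMap kk L (lam k) * (H.mulVec v) k)) :
    len A0 A1 = 1 := by
  obtain ⟨e, he⟩ := ho.exists_residHom
  have hm : ∀ v : A1, ∑ k, algebraMap kk L (lam k) * (H.mulVec v.1) k ∈ c := fun v =>
    sum_mem fun k _ => mul_mem (c.algebraMap_mem _) (h1 v.1 v.2 k)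
  let φ : A1 →ₗ[kk] kk :=
    { toFun := fun v => e ⟨_, hm v⟩
      map_add' := fun a b => by
        rw [← map_add]
        congr 1
        apply Subtype.ext
        change _ = _ + _
        simp only [Submodule.coe_add, Matrix.mulVec_add, Pi.add_apply, mul_add,
          Finset.sum_add_distrib]
      map_smul' := fun s a => by
        rw [RingHom.id_apply, ← map_smul]
        congr 1
        apply Subtype.ext
        change _ = s • _
        simp only [Submodule.coe_smul, Matrix.mulVec_smul, Pi.smul_apply, Finset.smul_sum,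
          mul_smul_comm] }
  have hφ : ∀ v : A1, φ v = 0 ↔ v.1 ∈ A0 := by
    intro v
    have h4 : φ v = resid c (∑ k, algebraMap kk L (lam k) * (H.mulVec v.1) k) := he _
    rw [h4, ho.resid_eq_zero (hm v), h2]
    exact ⟨fun h => ⟨v.2, h⟩, fun h => h.2⟩
  have hsurj : Function.Surjective φ := by
    obtain ⟨v, hv, hv'⟩ := h3
    have h5 : φ ⟨v, hv⟩ ≠ 0 := by
      intro h0
      exact hv' ((h2 v).1 ((hφ ⟨v, hv⟩).1 h0)).2
    intro s
    refine ⟨(s / φ ⟨v, hv⟩) • ⟨v, hv⟩, ?_⟩
    rw [map_smul, smul_eq_mul, div_mul_cancel₀ _ h5]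
  have hker : LinearMap.ker φ = A0.submoduleOf A1 := by
    ext v
    rw [LinearMap.mem_ker, hφ]
    rfl
  unfold len
  rw [← hker, (LinearMap.quotKerEquivOfSurjective φ hsurj).finrank_eq, finrank_self]

/-! ### The degree of a modification -/

theorem det_unit {c : Subalgebra kk L} (ho : IsOrd c (ordv c)) {M : Matrix (Fin n) (Fin n) L}
    (hd : M.det ≠ 0) (hM : ∀ k l, M k l ∈ c) (hM' : ∀ k l, M⁻¹ k l ∈ c) :
    ordv c M.det = 0 := by
  have h1 := (ho.mem _ hd).1 (det_mem hM)
  have h2 := det_mem hM'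
  have h3 : M⁻¹.det = M.det⁻¹ := by
    rw [Matrix.det_nonsing_inv, Ring.inverse_eq_inv']
  rw [h3, ho.mem _ (inv_ne_zero hd), ho.ordv_inv] at h2
  omega

theorem fin_det (t : L) [IsCurve kk t] {h : pl kk L → Matrix (Fin n) (Fin n) L} (hF : IsFr h) :
    {c : pl kk L | ordv c.1 (h c).det ≠ 0}.Finite := by
  refine hF.fin.subset fun c hc hn => hc ?_
  exact det_unit (isOrd_ordv t c.2) (hF.det c) hn.1 hn.2

theorem loc_le {t : L} [IsCurve kk t] {h h' : pl kk L → Matrix (Fin n) (Fin n) L}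
    {E E' : Pair kk t (Fin n → L)} (hF : IsFr h) (hF' : IsFr h') (hE : IsPair h E)
    (hE' : IsPair h' E') (hle : E' ≤ E) (c : pl kk L) (v : Fin n → L)
    (hv : ∀ k, (((h' c)⁻¹).mulVec v) k ∈ c.1) : ∀ k, (((h c)⁻¹).mulVec v) k ∈ c.1 := by
  rw [lat_of_isPair hF' hE'] at hv
  rw [lat_of_isPair hF hE]
  refine ⟨fun ht => ?_, fun ht => ?_⟩
  · obtain ⟨r, h1, h2, h3, h4⟩ := hv.1 ht
    exact ⟨r, h1, h2, h3, hle.1 h4⟩
  · obtain ⟨r, h1, h2, h3, h4⟩ := hv.2 ht
    exact ⟨r, h1, h2, h3, hle.2 h4⟩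

theorem trans_mem {t : L} [IsCurve kk t] {h h' : pl kk L → Matrix (Fin n) (Fin n) L}
    {E E' : Pair kk t (Fin n → L)} (hF : IsFr h) (hF' : IsFr h') (hE : IsPair h E)
    (hE' : IsPair h' E') (hle : E' ≤ E) (c : pl kk L) (k l : Fin n) :
    ((h c)⁻¹ * h' c) k l ∈ c.1 := by
  have h1 := loc_le hF hF' hE hE' hle c ((h' c).mulVec (Pi.single l 1)) (by
    intro k
    rw [Matrix.mulVec_mulVec, Matrix.nonsing_inv_mul _ (isUnit_iff_ne_zero.2 (hF'.det c)),
      Matrix.one_mulVec]
    by_cases hk : k = l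
    · rw [hk, Pi.single_eq_same]; exact one_mem _
    · rw [Pi.single_eq_of_ne hk]; exact zero_mem _) k
  rw [Matrix.mulVec_mulVec, Matrix.mulVec_single_one] at h1
  exact h1

omit [Algebra kk L] in
theorem det_trans {A B : Matrix (Fin n) (Fin n) L} : (A⁻¹ * B).det = A.det⁻¹ * B.det := by
  rw [Matrix.det_mul, Matrix.det_nonsing_inv, Ring.inverse_eq_inv']

/-- The difference of the orders of the determinants. -/
def D (h h' : pl kk L → Matrix (Fin n) (Fin n) L) (c : pl kk L) : ℤ :=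
  ordv c.1 (h' c).det - ordv c.1 (h c).det

theorem D_eq (t : L) [IsCurve kk t] {h h' : pl kk L → Matrix (Fin n) (Fin n) L} (hF : IsFr h)
    (hF' : IsFr h') (c : pl kk L) : D h h' c = ordv c.1 ((h c)⁻¹ * h' c).det := by
  have ho := isOrd_ordv t c.2
  rw [det_trans, ho.mul _ _ (inv_ne_zero (hF.det c)) (hF'.det c), ho.ordv_inv, D]
  ring

theorem D_nonneg {t : L} [IsCurve kk t] {h h' : pl kk L → Matrix (Fin n) (Fin n) L}
    {E E' : Pair kk t (Fin n → L)} (hF : IsFr h) (hF' : IsFr h') (hE : IsPair h E)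
    (hE' : IsPair h' E') (hle : E' ≤ E) (c : pl kk L) : 0 ≤ D h h' c := by
  rw [D_eq t hF hF' c, ← (isOrd_ordv t c.2).mem]
  · exact det_mem (trans_mem hF hF' hE hE' hle c)
  · rw [det_trans]
    exact mul_ne_zero (inv_ne_zero (hF.det c)) (hF'.det c)

theorem D_finite (t : L) [IsCurve kk t] {h h' : pl kk L → Matrix (Fin n) (Fin n) L} (hF : IsFr h)
    (hF' : IsFr h') : (Function.support (D h h')).Finite := by
  refine ((fin_det t hF).union (fin_det t hF')).subset fun c hc => ?_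
  by_contra hn
  rw [Set.mem_union, not_or, Set.mem_ofPred_eq, Set.mem_ofPred_eq, not_not, not_not] at hn
  apply hc
  rw [D, hn.1, hn.2, sub_zero]

theorem le_of_D {t : L} [IsCurve kk t] {h h' : pl kk L → Matrix (Fin n) (Fin n) L}
    {E E' : Pair kk t (Fin n → L)} (hF : IsFr h) (hF' : IsFr h') (hE : IsPair h E)
    (hE' : IsPair h' E') (hle : E' ≤ E) (hD : ∀ c, D h h' c = 0) : E ≤ E' := by
  have key : ∀ (c : pl kk L) (v : Fin n → L), (∀ k, (((h c)⁻¹).mulVec v) k ∈ c.1) →
      ∀ k, (((h' c)⁻¹).mulVec v) k ∈ c.1 := by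
    intro c v hv
    have ho := isOrd_ordv t c.2
    have hM := trans_mem hF hF' hE hE' hle c
    have hne : ((h c)⁻¹ * h' c).det ≠ 0 := by
      rw [det_trans]
      exact mul_ne_zero (inv_ne_zero (hF.det c)) (hF'.det c)
    have h1 : (((h c)⁻¹ * h' c).det)⁻¹ ∈ c.1 := by
      rw [ho.mem _ (inv_ne_zero hne), ho.ordv_inv, ← D_eq t hF hF' c, hD c]
      norm_num
    have h2 := inv_mem hM h1
    have h3 : (h' c)⁻¹.mulVec v = (((h c)⁻¹ * h' c)⁻¹).mulVec ((h c)⁻¹.mulVec v) := by
      rw [Matrix.mulVec_mulVec, Matrix.mul_inv_rev, Matrix.nonsing_inv_nonsing_inv _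
        (isUnit_iff_ne_zero.2 (hF.det c)), Matrix.mul_assoc,
        Matrix.mul_nonsing_inv _ (isUnit_iff_ne_zero.2 (hF.det c)), Matrix.mul_one]
    intro k
    rw [h3]
    have := A3.mem_of_mulVec (r := 1) (fun k l => by rw [one_mul]; exact h2 k l) hv k
    rwa [one_mul] at this
  constructor
  · intro v hv
    rw [hE.1] at hv
    rw [hE'.1]
    exact fun c hc => key c v (hv c hc)
  · intro v hv
    rw [hE.2] at hv
    rw [hE'.2]
    exact fun c hc => key c v (hv c hc)

/-- The elementary modification. -/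
theorem step {t : L} [IsCurve kk t] {h h' : pl kk L → Matrix (Fin n) (Fin n) L}
    {E E' : Pair kk t (Fin n → L)} (hF : IsFr h) (hF' : IsFr h') (hE : IsPair h E)
    (hE' : IsPair h' E') (hle : E' ≤ E) (c0 : pl kk L) (hc0 : 0 < D h h' c0) :
    ∃ (h2 : pl kk L → Matrix (Fin n) (Fin n) L) (E2 : Pair kk t (Fin n → L)), IsFr h2 ∧
      IsPair h2 E2 ∧ E' ≤ E2 ∧ E.deg = E2.deg + 1 ∧ D h2 h' c0 = D h h' c0 - 1 ∧
      ∀ c, c ≠ c0 → D h2 h' c = D h h' c := by
  classical
  have ho := isOrd_ordv t c0.2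
  have hM := trans_mem hF hF' hE hE' hle c0
  have hdetM : MemP c0.1 1 ((h c0)⁻¹ * h' c0).det := by
    rw [D_eq t hF hF' c0] at hc0
    exact Or.inr hc0
  obtain ⟨lam, k0, hl, hlam⟩ := exists_ker ho hM hdetM
  obtain ⟨π, hπ, hπ1⟩ := ho.surj
  have hlL : algebraMap kk L (lam k0) ≠ 0 := by
    rw [Ne, FaithfulSMul.algebraMap_eq_zero_iff]; exact hl
  have hQd : (Q lam k0 π).det ≠ 0 := by
    rw [Q_det]
    exact mul_ne_zero (inv_ne_zero hπ) hlL
  let h2 : pl kk L → Matrix (Fin n) (Fin n) L := Function.update h c0 (h c0 * (Q lam k0 π)⁻¹)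
  have h2s : h2 c0 = h c0 * (Q lam k0 π)⁻¹ := Function.update_self _ _ _
  have h2n : ∀ c, c ≠ c0 → h2 c = h c := fun c hc => Function.update_of_ne hc _ _
  have h2i : (h2 c0)⁻¹ = Q lam k0 π * (h c0)⁻¹ := by
    rw [h2s, Matrix.mul_inv_rev, Matrix.nonsing_inv_nonsing_inv _ (isUnit_iff_ne_zero.2 hQd)]
  have hF2 : IsFr h2 := by
    constructor
    · intro c
      by_cases hc : c = c0
      · rw [hc, h2s, Matrix.det_mul, Matrix.det_nonsing_inv, Ring.inverse_eq_inv']
        exact mul_ne_zero (hF.det c0) (inv_ne_zero hQd)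
      · rw [h2n c hc]; exact hF.det c
    · refine (hF.fin.union (Set.finite_singleton c0)).subset fun c hc => ?_
      by_cases hc' : c = c0
      · exact Or.inr hc'
      · refine Or.inl ?_
        rw [Set.mem_ofPred_eq, h2n c hc'] at hc
        exact hc
  obtain ⟨E2, hE2⟩ := exists_isPair t h2
  have hlat : ∀ v : Fin n → L, (∀ k, (((h2 c0)⁻¹).mulVec v) k ∈ c0.1) ↔
      (∀ k, (((h c0)⁻¹).mulVec v) k ∈ c0.1) ∧
        MemP c0.1 1 (∑ k, algebraMap kk L (lam k) * (((h c0)⁻¹).mulVec v) k) := by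
    intro v
    rw [h2i, ← Matrix.mulVec_mulVec]
    exact Q_lat ho hπ hπ1 hl _
  have hlat' : ∀ (c : pl kk L) (v : Fin n → L), (∀ k, (((h2 c)⁻¹).mulVec v) k ∈ c.1) →
      ∀ k, (((h c)⁻¹).mulVec v) k ∈ c.1 := by
    intro c v hv
    by_cases hc : c = c0
    · subst hc
      exact ((hlat v).1 hv).1
    · rwa [h2n c hc] at hv
  have hlat'' : ∀ (c : pl kk L) (v : Fin n → L), (∀ k, (((h' c)⁻¹).mulVec v) k ∈ c.1) →
      ∀ k, (((h2 c)⁻¹).mulVec v) k ∈ c.1 := by
    intro c v hv
    by_cases hc : c = c0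
    · subst hc
      rw [hlat v]
      refine ⟨loc_le hF hF' hE hE' hle c v hv, ?_⟩
      have h3 : (h c)⁻¹.mulVec v = ((h c)⁻¹ * h' c).mulVec ((h' c)⁻¹.mulVec v) := by
        rw [Matrix.mulVec_mulVec, Matrix.mul_assoc,
          Matrix.mul_nonsing_inv _ (isUnit_iff_ne_zero.2 (hF'.det c)), Matrix.mul_one]
      rw [h3]
      have h4 : ∀ (M : Matrix (Fin n) (Fin n) L) (w : Fin n → L),
          ∑ k, algebraMap kk L (lam k) * (M.mulVec w) k =
          ∑ l, (∑ k, algebraMap kk L (lam k) * M k l) * w l := by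
        intro M w
        simp only [Matrix.mulVec, dotProduct, Finset.mul_sum, Finset.sum_mul]
        rw [Finset.sum_comm]
        refine Finset.sum_congr rfl fun l _ => Finset.sum_congr rfl fun k _ => ?_
        ring
      rw [h4]
      refine ho.memP_sum _ _ fun l _ => ?_
      have h5 := ho.memP_mul (hlam l) ((ho.memP_zero _).2 (hv l))
      rwa [add_zero] at h5
    · rw [h2n c hc]
      exact loc_le hF hF' hE hE' hle c v hv
  have hle2 : E2 ≤ E := by
    constructor
    · intro v hv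
      rw [hE2.1] at hv
      rw [hE.1]
      exact fun c hc => hlat' c v (hv c hc)
    · intro v hv
      rw [hE2.2] at hv
      rw [hE.2]
      exact fun c hc => hlat' c v (hv c hc)
  have hle3 : E' ≤ E2 := by
    constructor
    · intro v hv
      rw [hE'.1] at hv
      rw [hE2.1]
      exact fun c hc => hlat'' c v (hv c hc)
    · intro v hv
      rw [hE'.2] at hv
      rw [hE2.2]
      exact fun c hc => hlat'' c v (hv c hc)
  have hex : ∀ k, (((h c0)⁻¹).mulVec ((h c0).mulVec (Pi.single k0 (1 : L)))) k ∈ c0.1 := by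
    intro k
    rw [Matrix.mulVec_mulVec, Matrix.nonsing_inv_mul _ (isUnit_iff_ne_zero.2 (hF.det c0)),
      Matrix.one_mulVec]
    by_cases hk : k = k0
    · rw [hk, Pi.single_eq_same]; exact one_mem _
    · rw [Pi.single_eq_of_ne hk]; exact zero_mem _
  have hex2 : ∀ r : L, r ≠ 0 → r ∈ c0.1 → r⁻¹ ∈ c0.1 → ¬ MemP c0.1 1 (∑ k, algebraMap kk L (lam k) *
      (((h c0)⁻¹).mulVec (r • (h c0).mulVec (Pi.single k0 (1 : L)))) k) := by
    intro r hr0 hr hr' hm
    rw [Matrix.mulVec_smul, Matrix.mulVec_mulVec,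
      Matrix.nonsing_inv_mul _ (isUnit_iff_ne_zero.2 (hF.det c0)), Matrix.one_mulVec] at hm
    have h6 : ∑ k, algebraMap kk L (lam k) * (r • Pi.single (M := fun _ => L) k0 (1 : L)) k =
        algebraMap kk L (lam k0) * r := by
      rw [Finset.sum_eq_single k0]
      · rw [Pi.smul_apply, Pi.single_eq_same, smul_eq_mul, mul_one]
      · intro k _ hk
        rw [Pi.smul_apply, Pi.single_eq_of_ne hk, smul_zero, mul_zero]
      · intro hn
        exact absurd (Finset.mem_univ _) hn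
    rw [h6] at hm
    rcases hm with hm | hm
    · exact mul_ne_zero hlL hr0 hm
    · rw [ho.mul _ _ hlL hr0, ho.ordv_const] at hm
      rw [ho.mem _ (inv_ne_zero hr0), ho.ordv_inv] at hr'
      omega
  have hdeg := Pair.Y_chi E E2 (isBundle_of_isPair hF hE) (isBundle_of_isPair hF2 hE2) hle2
  have hdeg' : E.deg = E2.deg + 1 := by
    rw [hdeg]
    by_cases ht : t ∈ c0.1
    · have e1 : E2.L1 = E.L1 := by
        ext v
        rw [hE2.2, hE.2]
        refine forall_congr' fun c => forall_congr' fun hc => ?_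
        have : c ≠ c0 := by rintro rfl; exact hc ht
        rw [h2n c this]
      have e2 : len (E2.L0.restrictScalars kk) (E.L0.restrictScalars kk) = 1 := by
        refine len_one ho (h c0)⁻¹ lam _ _ (fun v hv => (hE.1 v).1 hv c0 ht) ?_ ?_
        · intro v
          rw [Submodule.restrictScalars_mem, Submodule.restrictScalars_mem, hE2.1, hE.1]
          constructor
          · intro hv
            exact ⟨fun c hc => hlat' c v (hv c hc), ((hlat v).1 (hv c0 ht)).2⟩
          · rintro ⟨hv, hv'⟩ c hc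
            by_cases hcc : c = c0
            · subst hcc
              exact (hlat v).2 ⟨hv c ht, hv'⟩
            · rw [h2n c hcc]; exact hv c hc
        · obtain ⟨r, hr, hr0, hr1, hr2⟩ := ((lat_of_isPair hF hE c0 _).1 hex).1 ht
          exact ⟨_, hr2, hex2 r hr0 (A1.R0_le t c0.2 ht hr) hr1⟩
      rw [e1, e2, Pair.Y_len_self]
      push_cast
      ring
    · have e1 : E2.L0 = E.L0 := by
        ext v
        rw [hE2.1, hE.1]
        refine forall_congr' fun c => forall_congr' fun hc => ?_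
        have : c ≠ c0 := by rintro rfl; exact ht hc
        rw [h2n c this]
      have e2 : len (E2.L1.restrictScalars kk) (E.L1.restrictScalars kk) = 1 := by
        refine len_one ho (h c0)⁻¹ lam _ _ (fun v hv => (hE.2 v).1 hv c0 ht) ?_ ?_
        · intro v
          rw [Submodule.restrictScalars_mem, Submodule.restrictScalars_mem, hE2.2, hE.2]
          constructor
          · intro hv
            exact ⟨fun c hc => hlat' c v (hv c hc), ((hlat v).1 (hv c0 ht)).2⟩
          · rintro ⟨hv, hv'⟩ c hc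
            by_cases hcc : c = c0
            · subst hcc
              exact (hlat v).2 ⟨hv c ht, hv'⟩
            · rw [h2n c hcc]; exact hv c hc
        · obtain ⟨r, hr, hr0, hr1, hr2⟩ := ((lat_of_isPair hF hE c0 _).1 hex).2 ht
          exact ⟨_, hr2, hex2 r hr0 (A1.R1_le t c0.2 (IsCurve.trans (k := kk)) ht hr) hr1⟩
      rw [e1, e2, Pair.Y_len_self]
      push_cast
      ring
  refine ⟨h2, E2, hF2, hE2, hle3, hdeg', ?_, ?_⟩
  · have h7 : ordv c0.1 (h2 c0).det = ordv c0.1 (h c0).det + 1 := by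
      rw [h2s, Matrix.det_mul, Matrix.det_nonsing_inv, Ring.inverse_eq_inv', Q_det,
        ho.mul _ _ (hF.det c0) (inv_ne_zero (mul_ne_zero (inv_ne_zero hπ) hlL)), ho.ordv_inv,
        ho.mul _ _ (inv_ne_zero hπ) hlL, ho.ordv_inv, hπ1, ho.ordv_const]
      ring
    rw [D, D, h7]
    ring
  · intro c hc
    rw [D, D, h2n c hc]

theorem deg_sub (t : L) [IsCurve kk t] {h' : pl kk L → Matrix (Fin n) (Fin n) L}
    {E' : Pair kk t (Fin n → L)} (hF' : IsFr h') (hE' : IsPair h' E') (N : ℕ) :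
    ∀ (h : pl kk L → Matrix (Fin n) (Fin n) L) (E : Pair kk t (Fin n → L)) (_ : IsFr h)
      (_ : IsPair h E) (_ : E' ≤ E), ∑ᶠ c, D h h' c = N → E.deg = E'.deg + N := by
  induction N with
  | zero =>
    intro h E hF hE hle hN
    have hD : ∀ c, D h h' c = 0 := by
      intro c
      by_contra hc
      have h1 : 0 < ∑ᶠ c, D h h' c :=
        finsum_pos (D_nonneg hF hF' hE hE' hle)
          ⟨c, lt_of_le_of_ne (D_nonneg hF hF' hE hE' hle c) (Ne.symm hc)⟩ (D_finite t hF hF')
      rw [hN] at h1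
      norm_num at h1
    have h2 := le_of_D hF hF' hE hE' hle hD
    have h3 : E = E' := Pair.ext (le_antisymm h2.1 hle.1) (le_antisymm h2.2 hle.2)
    rw [h3]
    norm_num
  | succ N ih =>
    intro h E hF hE hle hN
    have h1 : ∃ c0, 0 < D h h' c0 := by
      by_contra hn
      push Not at hn
      have h2 : ∀ c, D h h' c = 0 := fun c =>
        le_antisymm (hn c) (D_nonneg hF hF' hE hE' hle c)
      rw [finsum_congr h2, finsum_zero] at hN
      norm_num at hN
      omega
    obtain ⟨c0, hc0⟩ := h1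
    obtain ⟨h2, E2, hF2, hE2, hle2, hdeg, hD0, hD⟩ := step hF hF' hE hE' hle c0 hc0
    have h3 : ∑ᶠ c, D h h' c = (∑ᶠ c, D h2 h' c) + 1 := by
      have h4 : ∀ c, D h h' c = D h2 h' c + Set.indicator {c0} (fun _ => 1) c := by
        intro c
        by_cases hc : c = c0
        · rw [hc, hD0, Set.indicator_of_mem (Set.mem_singleton c0)]
          ring
        · rw [hD c hc, Set.indicator_of_notMem (by simpa using hc), add_zero]
      rw [finsum_congr h4, finsum_add_distrib (D_finite t hF2 hF')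
        ((Set.finite_singleton c0).subset (by
          intro c hc
          by_contra hn
          exact hc (Set.indicator_of_notMem hn _)))]
      congr 1
      rw [← finsum_mem_def, finsum_mem_singleton]
    rw [h3] at hN
    have h5 := ih h2 E2 hF2 hE2 hle2 (by push_cast at hN; linarith)
    rw [hdeg, h5]
    push_cast
    ring

theorem deg_of_le {t : L} [IsCurve kk t] {h h' : pl kk L → Matrix (Fin n) (Fin n) L}
    {E E' : Pair kk t (Fin n → L)} (hF : IsFr h) (hF' : IsFr h') (hE : IsPair h E)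
    (hE' : IsPair h' E') (hle : E' ≤ E) :
    E.deg + ∑ᶠ c : pl kk L, ordv c.1 (h c).det = E'.deg + ∑ᶠ c : pl kk L, ordv c.1 (h' c).det := by
  have h1 : 0 ≤ ∑ᶠ c, D h h' c := finsum_nonneg (D_nonneg hF hF' hE hE' hle)
  obtain ⟨N, hN⟩ := Int.eq_ofNat_of_zero_le h1
  have h2 := deg_sub t hF' hE' N h E hF hE hle hN
  have h3 : ∑ᶠ c, D h h' c = (∑ᶠ c : pl kk L, ordv c.1 (h' c).det) -
      ∑ᶠ c : pl kk L, ordv c.1 (h c).det :=
    finsum_sub_distrib (fin_det t hF') (fin_det t hF)
  rw [h3] at hN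
  rw [h2, ← hN]
  ring

/-- The trivial frame. -/
theorem isFr_one : IsFr (fun _ : pl kk L => (1 : Matrix (Fin n) (Fin n) L)) := by
  constructor
  · intro c
    rw [Matrix.det_one]
    exact one_ne_zero
  · refine Set.finite_empty.subset fun c hc => hc ?_
    have : ∀ k l, (1 : Matrix (Fin n) (Fin n) L) k l ∈ c.1 := by
      intro k l
      rw [Matrix.one_apply]
      split_ifs
      · exact one_mem _
      · exact zero_mem _
    refine ⟨this, ?_⟩
    rw [inv_one]
    exact this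

theorem isPair_triv (t : L) [IsCurve kk t] :
    IsPair (fun _ : pl kk L => (1 : Matrix (Fin n) (Fin n) L)) (Pair.triv kk t (Fin n)) := by
  constructor
  · intro v
    rw [Pair.MultAux.mem_triv_L0]
    simp only [inv_one, Matrix.one_mulVec]
    constructor
    · intro h c hc k
      exact A1.R0_le t c.2 hc (h k)
    · intro h k
      rw [mem_R0_iff_pl]
      exact fun c hc ht => h ⟨c, hc⟩ ht k
  · intro v
    rw [Pair.MultAux.mem_triv_L1]
    simp only [inv_one, Matrix.one_mulVec]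
    constructor
    · intro h c hc k
      exact A1.R1_le t c.2 (IsCurve.trans (k := kk)) hc (h k)
    · intro h k
      rw [mem_R1_iff_pl]
      exact fun c hc ht => h ⟨c, hc⟩ ht k

end A4

open A4

theorem deg_of_isPair {t : L} [IsCurve kk t] {h : pl kk L → Matrix (Fin n) (Fin n) L}
    {E : Pair kk t (Fin n → L)} (hF : IsFr h) (hE : IsPair h E) :
    E.deg = -∑ᶠ c : pl kk L, ordv c.1 (h c).det := by
  classical
  have hfr := R0_fraction kk t
  have hfr' := R1_fraction kk t
  obtain ⟨r, hr, hr0, hrc⟩ := A3.bound (R0 kk t) hF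
  obtain ⟨s, hs, hs0, hsc⟩ := A3.bound (R1 kk t) hF
  let a : pl kk L → L := fun c => if t ∈ c.1 then r else s
  have ha : ∀ c, a c ≠ 0 := by
    intro c
    simp only [a]
    split_ifs
    · exact hr0
    · exact hs0
  have hac : ∀ c, a c ∈ c.1 := by
    intro c
    simp only [a]
    split_ifs with ht
    · exact A1.R0_le t c.2 ht hr
    · exact A1.R1_le t c.2 (IsCurve.trans (k := kk)) ht hs
  have hah : ∀ c k l, a c * (h c)⁻¹ k l ∈ c.1 := by
    intro c k l
    simp only [a]
    split_ifs with ht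
    · exact (hrc c (A1.R0_le t c.2 ht) k l).2
    · exact (hsc c (A1.R1_le t c.2 (IsCurve.trans (k := kk)) ht) k l).2
  let g : pl kk L → Matrix (Fin n) (Fin n) L := fun c => a c • (1 : Matrix (Fin n) (Fin n) L)
  have hgi : ∀ c, (g c)⁻¹ = (a c)⁻¹ • (1 : Matrix (Fin n) (Fin n) L) := by
    intro c
    apply Matrix.inv_eq_left_inv
    rw [Matrix.smul_mul, Matrix.mul_smul, smul_smul, inv_mul_cancel₀ (ha c), one_smul,
      Matrix.one_mul]
  have hsmul : ∀ (c : pl kk L) (x : L), x ∈ c.1 → ∀ k l,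
      (x • (1 : Matrix (Fin n) (Fin n) L)) k l ∈ c.1 := by
    intro c x hx k l
    rw [Matrix.smul_apply, Matrix.one_apply]
    split_ifs
    · rw [smul_eq_mul, mul_one]; exact hx
    · rw [smul_zero]; exact zero_mem _
  have hG : IsFr g := by
    constructor
    · intro c
      simp only [g]
      rw [Matrix.det_smul, Matrix.det_one, mul_one]
      exact pow_ne_zero _ (ha c)
    · refine ((ordv_finite t hr0).union (ordv_finite t hs0)).subset fun c hc => ?_
      by_contra hn
      rw [Set.mem_union, not_or, Set.mem_ofPred_eq, Set.mem_ofPred_eq, not_not, not_not] at hn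
      apply hc
      have ho := isOrd_ordv t c.2
      have hai : (a c)⁻¹ ∈ c.1 := by
        rw [ho.mem _ (inv_ne_zero (ha c)), ho.ordv_inv]
        simp only [a]
        split_ifs
        · rw [hn.1]; norm_num
        · rw [hn.2]; norm_num
      refine ⟨hsmul c _ (hac c), ?_⟩
      rw [hgi]
      exact hsmul c _ hai
  obtain ⟨G, hGP⟩ := exists_isPair t g
  have hvec : ∀ (c : pl kk L) (v : Fin n → L), (∀ k, (((g c)⁻¹).mulVec v) k ∈ c.1) →
      ∀ k, (a c)⁻¹ * v k ∈ c.1 := by
    intro c v hv k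
    have := hv k
    rw [hgi, Matrix.smul_mulVec, Matrix.one_mulVec, Pi.smul_apply, smul_eq_mul] at this
    exact this
  have key1 : ∀ (c : pl kk L) (v : Fin n → L), (∀ k, (((g c)⁻¹).mulVec v) k ∈ c.1) →
      ∀ k, (((h c)⁻¹).mulVec v) k ∈ c.1 := by
    intro c v hv k
    have h1 : v = a c • ((a c)⁻¹ • v) := by rw [smul_smul, mul_inv_cancel₀ (ha c), one_smul]
    rw [h1, Matrix.mulVec_smul]
    exact A3.mem_of_mulVec (hah c) (hvec c v hv) k
  have key2 : ∀ (c : pl kk L) (v : Fin n → L), (∀ k, (((g c)⁻¹).mulVec v) k ∈ c.1) →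
      ∀ k, (((1 : Matrix (Fin n) (Fin n) L)⁻¹).mulVec v) k ∈ c.1 := by
    intro c v hv k
    rw [inv_one, Matrix.one_mulVec]
    have h1 : v k = a c * ((a c)⁻¹ * v k) := by
      rw [← mul_assoc, mul_inv_cancel₀ (ha c), one_mul]
    rw [h1]
    exact mul_mem (hac c) (hvec c v hv k)
  have hle1 : G ≤ E := by
    constructor
    · intro v hv
      rw [hGP.1] at hv
      rw [hE.1]
      exact fun c hc => key1 c v (hv c hc)
    · intro v hv
      rw [hGP.2] at hv
      rw [hE.2]
      exact fun c hc => key1 c v (hv c hc)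
  have hT := isPair_triv (kk := kk) (n := n) t
  have hle2 : G ≤ Pair.triv kk t (Fin n) := by
    constructor
    · intro v hv
      rw [hGP.1] at hv
      rw [hT.1]
      exact fun c hc => key2 c v (hv c hc)
    · intro v hv
      rw [hGP.2] at hv
      rw [hT.2]
      exact fun c hc => key2 c v (hv c hc)
  have e1 := deg_of_le hF hG hE hGP hle1
  have e2 := deg_of_le isFr_one hG hT hGP hle2
  have e3 : ∑ᶠ c : pl kk L, ordv c.1 (1 : Matrix (Fin n) (Fin n) L).det = 0 := by
    have : ∀ c : pl kk L, ordv c.1 (1 : Matrix (Fin n) (Fin n) L).det = 0 := by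
      intro c
      rw [Matrix.det_one, ← map_one (algebraMap kk L)]
      exact (isOrd_ordv t c.2).ordv_const 1
    rw [finsum_congr this, finsum_zero]
  rw [Pair.deg_triv, e3] at e2
  linarith

theorem sum_ordv (t : L) [IsCurve kk t] {f : L} (hf : f ≠ 0) :
    ∑ᶠ c : pl kk L, ordv c.1 f = 0 := by
  let g : pl kk L → Matrix (Fin 1) (Fin 1) L := fun _ => f • (1 : Matrix (Fin 1) (Fin 1) L)
  have hgd : ∀ c, (g c).det = f := by
    intro c
    simp only [g]
    rw [Matrix.det_smul, Matrix.det_one, Fintype.card_fin, pow_one, mul_one]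
  have hgi : ∀ c, (g c)⁻¹ = f⁻¹ • (1 : Matrix (Fin 1) (Fin 1) L) := by
    intro c
    apply Matrix.inv_eq_left_inv
    simp only [g]
    rw [Matrix.smul_mul, Matrix.mul_smul, smul_smul, inv_mul_cancel₀ hf, one_smul,
      Matrix.one_mul]
  have hG : IsFr g := by
    constructor
    · intro c
      rw [hgd c]
      exact hf
    · refine (ordv_finite t hf).subset fun c hc hn => hc ?_
      have ho := isOrd_ordv t c.2
      have h1 : f ∈ c.1 := by rw [ho.mem _ hf, hn]
      have h2 : f⁻¹ ∈ c.1 := by rw [ho.mem _ (inv_ne_zero hf), ho.ordv_inv, hn]; norm_num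
      have h3 : ∀ x : L, x ∈ c.1 → ∀ k l, (x • (1 : Matrix (Fin 1) (Fin 1) L)) k l ∈ c.1 := by
        intro x hx k l
        rw [Matrix.smul_apply, Matrix.one_apply]
        split_ifs
        · rw [smul_eq_mul, mul_one]; exact hx
        · rw [smul_zero]; exact zero_mem _
      refine ⟨h3 _ h1, ?_⟩
      rw [hgi c]
      exact h3 _ h2
  obtain ⟨G, hGP⟩ := exists_isPair t g
  have h1 := deg_of_isPair hG hGP
  let e : (Fin 1 → L) ≃ₗ[L] (Fin 1 → L) := LinearEquiv.smulOfNeZero L (Fin 1 → L) f hf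
  have hT := isPair_triv (kk := kk) (n := 1) t
  have h2 : (Pair.triv kk t (Fin 1)).map e.toLinearMap = G := by
    have hes : ∀ v, e.symm v = f⁻¹ • v := fun v => rfl
    apply Pair.ext
    · ext v
      rw [IsoAux.mem_map0, hes, hT.1, hGP.1]
      simp only [hgi, inv_one, Matrix.one_mulVec, Matrix.smul_mulVec]
    · ext v
      rw [IsoAux.mem_map1, hes, hT.2, hGP.2]
      simp only [hgi, inv_one, Matrix.one_mulVec, Matrix.smul_mulVec]
  have h3 := IsoAux.deg_map (Pair.triv kk t (Fin 1)) e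
  rw [h2, Pair.deg_triv] at h3
  rw [← h3] at h1
  have h4 : ∑ᶠ c : pl kk L, ordv c.1 (g c).det = ∑ᶠ c : pl kk L, ordv c.1 f :=
    finsum_congr fun c => by rw [hgd c]
  rw [← h4]
  linarith


end P4

end PF

end Pool.Agent.EllHiggs
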