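import Pool.Agent.EllHiggs.Basic2

/-!
# MP_fdcaa9_ag, module PlaceRes
-/

open Polynomial Module

noncomputable section

namespace Pool.Agent.EllHiggs

namespace PlaceRes

variable {k L : Type} [Field k] [Field L] [Algebra k L]

/-- Every transcendental element is a parameter up to algebraicity. -/
theorem isAlgebraic_adjoin (hL : IsFunField k L) {f : L} (hf : Transcendental k f) (g : L) :
    IsAlgebraic (Algebra.adjoin k {f}) g := by
  obtain ⟨t, ht, hfin⟩ := hL
  have h1 : IsTranscendenceBasis k (fun _ : Unit => t) := by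
    rw [isTranscendenceBasis_iff_algebraicIndependent_isAlgebraic]
    refine ⟨(algebraicIndependent_unique_type_iff).2 ht, ?_⟩
    have h2 : Algebra.IsAlgebraic (IntermediateField.adjoin k {t}) L := inferInstance
    rw [Set.range_const]
    constructor
    intro x
    have h3 := h2.isAlgebraic x
    exact (IntermediateField.isAlgebraic_adjoin_iff (s := {t}) (x := x)).1 h3
  have h2 : Algebra.trdeg k L = 1 := by
    rw [← h1.cardinalMk_eq_trdeg]
    simp
  have h3 : IsTranscendenceBasis k (fun _ : Unit => f) :=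
    AlgebraicIndependent.isTranscendenceBasis_of_trdeg_le_of_finite
      ((algebraicIndependent_unique_type_iff).2 hf) (by
      rw [h2]; simp)
  have h4 := (isTranscendenceBasis_iff_algebraicIndependent_isAlgebraic.1 h3).2
  rw [Set.range_const] at h4
  exact h4.isAlgebraic g

/-- A place trivial on `k[f]`, `f` transcendental, does not exist. -/
theorem false_of_trivial (hL : IsFunField k L) {f : L} (hf : Transcendental k f) (c : Place k L)
    (h : ∀ p : k[X], p ≠ 0 → c.ord (aeval f p) = 0) : False := by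
  have h0 : ∀ a : Algebra.adjoin k {f}, c.ord (a : L) = 0 := by
    intro a
    obtain ⟨p, hp⟩ := (Algebra.adjoin_singleton_eq_range_aeval k f).le a.2
    have hp' : aeval f p = (a : L) := hp
    rw [← hp']
    by_cases hp0 : p = 0
    · rw [hp0, map_zero, c.ord_zero]
    · exact h p hp0
  obtain ⟨P, hP, hP0⟩ := isAlgebraic_adjoin hL hf c.unif⁻¹
  have hu : c.unif⁻¹ ≠ 0 := inv_ne_zero c.unif_ne_zero
  have hord : ∀ i : ℕ, c.ord (c.unif⁻¹ ^ i) = -i := by
    intro i
    rw [c.ord_pow, c.ord_inv, c.ord_unif]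
    ring
  rw [aeval_eq_sum_range, Finset.sum_range_succ] at hP0
  have h1 : c.Ge (-(P.natDegree : ℤ) + 1)
      (∑ i ∈ Finset.range P.natDegree, P.coeff i • c.unif⁻¹ ^ i) := by
    refine Place.Ge.sum fun i hi => ?_
    rw [Algebra.smul_def]
    by_cases hc : P.coeff i = 0
    · rw [hc, map_zero, zero_mul]; exact Place.Ge.zero
    · have hc' : algebraMap (Algebra.adjoin k {f}) L (P.coeff i) ≠ 0 := by
        rw [Ne, FaithfulSMul.algebraMap_eq_zero_iff]; exact hc
      refine Place.Ge.of_le ?_
      rw [c.ord_mul _ _ hc' (pow_ne_zero _ hu), hord]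
      have := h0 (P.coeff i)
      have h2 : c.ord (algebraMap (Algebra.adjoin k {f}) L (P.coeff i)) = 0 := this
      rw [h2]
      have := Finset.mem_range.1 hi
      omega
  have h2 : c.Ge (-(P.natDegree : ℤ) + 1) (P.coeff P.natDegree • c.unif⁻¹ ^ P.natDegree) := by
    have h3 := h1.neg
    rw [add_eq_zero_iff_neg_eq] at hP0
    rwa [hP0] at h3
  rw [Algebra.smul_def] at h2
  have hlc : P.coeff P.natDegree ≠ 0 := leadingCoeff_ne_zero.2 hP
  have hc' : algebraMap (Algebra.adjoin k {f}) L (P.coeff P.natDegree) ≠ 0 := by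
    rw [Ne, FaithfulSMul.algebraMap_eq_zero_iff]; exact hlc
  have h4 := h2.le_ord (mul_ne_zero hc' (pow_ne_zero _ hu))
  rw [c.ord_mul _ _ hc' (pow_ne_zero _ hu), hord] at h4
  have h5 : c.ord (algebraMap (Algebra.adjoin k {f}) L (P.coeff P.natDegree)) = 0 :=
    h0 (P.coeff P.natDegree)
  rw [h5] at h4
  omega

theorem ord_poly [IsAlgClosed k] (c : Place k L) {f : L}
    (h : ∀ s : k, f - algebraMap k L s ≠ 0 ∧ c.ord (f - algebraMap k L s) = 0) (n : ℕ) :
    ∀ p : k[X], p ≠ 0 → p.natDegree = n → aeval f p ≠ 0 ∧ c.ord (aeval f p) = 0 := by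
  induction n with
  | zero =>
    intro p hp hn
    rw [eq_C_of_natDegree_eq_zero hn, aeval_C, c.ord_const]
    refine ⟨?_, rfl⟩
    rw [Ne, FaithfulSMul.algebraMap_eq_zero_iff]
    intro h0
    apply hp
    rw [eq_C_of_natDegree_eq_zero hn, h0, C_0]
  | succ n ih =>
    intro p hp hn
    obtain ⟨s, hs⟩ := IsAlgClosed.exists_root p (by
      intro h0
      have h1 : p.natDegree = 0 := natDegree_eq_of_degree_eq_some h0
      omega)
    obtain ⟨q, rfl⟩ := dvd_iff_isRoot.2 hs
    have hq : q ≠ 0 := right_ne_zero_of_mul hp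
    have hqn : q.natDegree = n := by
      rw [natDegree_mul (X_sub_C_ne_zero s) hq, natDegree_X_sub_C] at hn
      omega
    obtain ⟨h1, h2⟩ := ih q hq hqn
    have h3 : aeval f ((X - C s) * q) = (f - algebraMap k L s) * aeval f q := by
      rw [map_mul, map_sub, aeval_X, aeval_C]
    rw [h3, c.ord_mul _ _ (h s).1 h1, (h s).2, h2]
    exact ⟨mul_ne_zero (h s).1 h1, rfl⟩

end PlaceRes

section
variable {k L : Type} [Field k] [Field L] [Algebra k L]

theorem Place.rational [IsAlgClosed k] (hL : IsFunField k L) (c : Place k L) : c.Rational := by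
  intro f hf
  by_contra hcon
  push Not at hcon
  have h : ∀ s : k, f - algebraMap k L s ≠ 0 ∧ c.ord (f - algebraMap k L s) = 0 := by
    intro s
    have h1 := hcon s
    rw [Place.Ge, not_or] at h1
    have h2 : f - algebraMap k L s ∈ c.O := sub_mem hf (Place.mem_O_const s)
    rw [Place.mem_O] at h2
    exact ⟨h1.1, by omega⟩
  have h1 := fun p hp => PlaceRes.ord_poly c h p.natDegree p hp rfl
  have hft : Transcendental k f := by
    rintro ⟨p, hp, hp0⟩
    exact (h1 p hp).1 hp0
  exact PlaceRes.false_of_trivial hL hft c fun p hp => (h1 p hp).2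

end

end Pool.Agent.EllHiggs
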